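import Pool.Agent.NH41.PA.Stm
import Pool.Agent.NH41.CK.FIN

/-!
Project PA (helper41): the properties of the lattice domains.
-/

set_option autoImplicit false

namespace Pool.Agent.NH41.PA.NET

open H974 H973 Finset Pool.Agent.Y989.SD
open TH976 (sd sd_self sd_comm sd_tri sd_pos Ar Cmp EH)
open Pool.Agent.NH41.CK (hgt pf HB LB cr)
open Pool.Agent.NH41.CK.BLK Pool.Agent.NH41.CK.FIN
open Pool.Agent.NH41.CK.GOOD3 (Net2)
open Pool.Agent.NH41.CK.LNK (sd_le_norm)

theorem t_NET : S_NET := by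
  intro f g Mf α hW ρ B ε0 hρ hε0 hGD
  obtain ⟨K1, c1, hK1, hc1, hblk⟩ := m_BLK B α hW.al0
  obtain ⟨K2, C2, hK2, hC2, harm⟩ := m_ARM B α hW.al0
  obtain ⟨K3, hK3, hlnk⟩ := m_LNK f g Mf α hW ρ B ε0 hρ hε0 hGD
  obtain ⟨l, H, hl, hH, hlip, -, -, -, -⟩ := m_GA f g Mf α hW
  set K := max K1 K3 with hK
  have hK1' : K1 ≤ K := le_max_left _ _
  have hK3' : K3 ≤ K := le_max_right _ _
  have hKR : (3 : ℝ) ≤ K := by exact_mod_cast hK1.trans hK1'
  have hK2R : (1 : ℝ) ≤ K2 := by exact_mod_cast hK2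
  set ρ' := ρ / (K * K2) with hρ'
  have hρ'0 : 0 < ρ' := by positivity
  have hρK : (K : ℝ) * K2 * ρ' = ρ := by
    rw [hρ']
    field_simp
  have hKρ : (K : ℝ) * ρ' ≤ ρ := by
    have h1 : 0 < (K : ℝ) * ρ' := by positivity
    nlinarith
  have hK3ρ : (K3 : ℝ) * ρ' ≤ ρ := by
    have h1 : (K3 : ℝ) ≤ K := by exact_mod_cast hK3'
    nlinarith
  obtain ⟨c3, ε1, hc3, hε1, hL⟩ := hlnk ρ' hρ'0 hK3ρ
  have hC20 : 0 < C2 := by linarith
  set c := min c1 (min c3 C2⁻¹) with hc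
  have hc0 : 0 < c := lt_min hc1 (lt_min hc3 (inv_pos.mpr hC20))
  refine ⟨K, ⌈4 * H / ρ'⌉₊ + 1, c, ρ', min (min ε0 ε1) ρ', lt_min (lt_min hε0 hε1) hρ'0, ?_⟩
  intro ε hε hε'
  have hεε0 : ε ≤ ε0 := hε'.trans ((min_le_left _ _).trans (min_le_left _ _))
  have hεε1 : ε ≤ ε1 := hε'.trans ((min_le_left _ _).trans (min_le_right _ _))
  have hερ : ε ≤ ρ' := hε'.trans (min_le_right _ _)
  have hG := hGD ε hε hεε0
  have hDm := Dm_of hε hG
  set S := ⌊ρ' / ε⌋₊ with hS
  have hq1 : 1 ≤ ρ' / ε := by rwa [le_div_iff₀ hε, one_mul]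
  have hS1 : 1 ≤ S := Nat.le_floor (by exact_mod_cast hq1)
  have hSle : (S : ℝ) ≤ ρ' / ε := Nat.floor_le (by positivity)
  have hSlt : ρ' / ε < S + 1 := Nat.lt_floor_add_one _
  have hS1R : (1 : ℝ) ≤ S := by exact_mod_cast hS1
  have key : ∀ m : ℝ, m * ρ' ≤ ρ → 0 ≤ m → m * S ≤ ρ / ε := by
    intro m hm hm0
    calc m * S ≤ m * (ρ' / ε) := mul_le_mul_of_nonneg_left hSle hm0
      _ = m * ρ' / ε := by ring
      _ ≤ ρ / ε := div_le_div_of_nonneg_right hm hε.le
  refine ⟨hρ'0, hG, ⟨hK1.trans hK1', hS1, by omega, hc0, ?_, ?_, ?_, ?_⟩, ?_⟩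
  · intro x hx r hr hrS
    refine (min_le_left _ _).trans ((hblk (TD f ε) _ hDm x hx r hr ?_).trans
      (Pr_mono H974.okhalf ?_))
    · rw [Int.le_floor]
      push_cast
      refine le_trans ?_ (key K1 ?_ (by positivity))
      · have : (r : ℝ) ≤ S := by exact_mod_cast hrS
        exact mul_le_mul_of_nonneg_left this (by positivity)
      · have : (K1 : ℝ) ≤ K := by exact_mod_cast hK1'
        nlinarith
    · intro F _ hF
      exact HB_mono le_rfl (Nat.mul_le_mul_right r hK1') hF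
  · intro x hx y hy
    refine ((min_le_right _ _).trans (min_le_left _ _)).trans
      ((hL ε hε hεε1 x hx y hy).trans (Pr_mono H974.okhalf ?_))
    intro F _ hF
    exact LB_mono (Nat.mul_le_mul_right S hK3') hF
  · intro x hx y hy
    obtain ⟨z, hz, hz'⟩ := (hG.1 x).mp hx
    obtain ⟨w, hw, hw'⟩ := (hG.1 y).mp hy
    have h1 := sd_le_norm hε x y
    rw [← hz', ← hw'] at h1
    have h2 := (hlip z hz w hw).2
    have h3 : ‖z - w‖ ≤ 2 := by
      unfold disc at hz hw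
      rw [Metric.mem_closedBall, dist_zero_right] at hz hw
      refine (norm_sub_le _ _).trans ?_
      linarith
    have h4 : ε * (sd x y : ℝ) ≤ 2 * H := by nlinarith
    have h5 : (sd x y : ℝ) ≤ 2 * H / ε := by
      rw [le_div_iff₀ hε]
      linarith
    have h6 : 2 * H / ε ≤ (4 * H / ρ') * S := by
      have h7 : ρ' / ε ≤ 2 * S := by linarith
      calc 2 * H / ε = 2 * H / ρ' * (ρ' / ε) := by field_simp
        _ ≤ 2 * H / ρ' * (2 * S) := mul_le_mul_of_nonneg_left h7 (by positivity)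
        _ = _ := by ring
    have h8 : (4 * H / ρ') * S ≤ ((⌈4 * H / ρ'⌉₊ + 1 : ℕ) : ℝ) * S := by
      apply mul_le_mul_of_nonneg_right _ (by positivity)
      push_cast
      linarith [Nat.le_ceil (4 * H / ρ')]
    exact_mod_cast (h5.trans h6).trans h8
  · intro x hx n hn hnK
    have h1 := harm (TD f ε) _ hDm x hx n hn ?_
    · refine h1.weaken ?_
      rw [le_inv_comm₀ hC20 hc0]
      exact (min_le_right _ _).trans (min_le_right _ _)
    · rw [Int.le_floor]
      push_cast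
      have h2 : (n : ℝ) ≤ K * S := by exact_mod_cast hnK
      calc (K2 : ℝ) * n ≤ K2 * (K * S) := mul_le_mul_of_nonneg_left h2 (by positivity)
        _ = (K * K2) * S := by ring
        _ ≤ ρ / ε := key _ hρK.le (by positivity)
  · rw [Int.le_floor]
    push_cast
    exact key K hKρ (by positivity)

end Pool.Agent.NH41.PA.NET
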