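import Pool.Agent.NH41.PA.SPL
import Pool.Agent.NH41.PA.NET

/-!
Project PA (helper41): the point-to-arc connection probabilities.
-/

set_option autoImplicit false

namespace Pool.Agent.NH41.PA.FINA

open H974 H973 Finset Pool.Agent.Y989.SD
open TH976 (Cmp)
open Pool.Agent.NH41.CK (cr)
open Pool.Agent.NH41.PA.SPL

/-- **Points and arcs.** -/
theorem main (hHM : S_HM) (hUP : S_UP) (hLO : S_LO) {f g : ℂ → ℂ} {Mf α : ℝ}
    (hW : SmW f g Mf α) : ∃ c C ε0 : ℝ, 0 < c ∧ 0 < C ∧ 0 < ε0 ∧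
    ∀ ε : ℝ, 0 < ε → ε ≤ ε0 → (∀ v : Vtx, v ∈ TD f ε ↔ pos ε v ∈ f '' disc) ∧
      ∀ (x : Vtx) (ζ : ℂ), ‖ζ‖ < 1 → f ζ = pos ε x → ε ≤ cr g ζ → ∀ a b : ℝ, ε ≤ b - a →
        b - a ≤ 2 * Real.pi →
        c * ((ε / cr g ζ) ^ (5 / 48 : ℝ) * hm ζ a b ^ (1 / 3 : ℝ)) ≤ pp f ε x a b ∧
        pp f ε x a b ≤ C * ((ε / cr g ζ) ^ (5 / 48 : ℝ) * hm ζ a b ^ (1 / 3 : ℝ)) := by
  obtain ⟨ρ, B, e0, hρ, he0, hGD⟩ := m_GD f g Mf α hW
  obtain ⟨C0, hC0, hhm⟩ := hHM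
  obtain ⟨C1, e1, hC1, he1, hU⟩ := hUP f g Mf α hW ρ B e0 hρ he0 hGD
  obtain ⟨c2, e2, hc2, he2, hL⟩ := hLO f g Mf α hW ρ B e0 hρ he0 hGD
  have hC00 : 0 < C0 := by linarith
  have hpow : C0 ^ (1 / 3 : ℝ) ≤ C0 := by
    calc C0 ^ (1 / 3 : ℝ) ≤ C0 ^ (1 : ℝ) :=
          Real.rpow_le_rpow_of_exponent_le hC0 (by norm_num)
      _ = C0 := Real.rpow_one C0
  refine ⟨c2 / C0 / 2 ^ 3, 2 ^ 3 * (C1 * C0), min (min e0 (1 / 2)) (min e1 e2), by positivity,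
    by positivity, lt_min (lt_min he0 (by norm_num)) (lt_min he1 he2), ?_⟩
  intro ε hε hε'
  have hε0 : ε ≤ e0 := hε'.trans ((min_le_left _ _).trans (min_le_left _ _))
  have hεh : ε ≤ 1 / 2 := hε'.trans ((min_le_left _ _).trans (min_le_right _ _))
  have hε1 : ε ≤ e1 := hε'.trans ((min_le_right _ _).trans (min_le_left _ _))
  have hε2 : ε ≤ e2 := hε'.trans ((min_le_right _ _).trans (min_le_right _ _))
  have hv := (hGD ε hε hε0).1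
  refine ⟨hv, ?_⟩
  intro x ζ hζ hfζ hcr a b hab hab2
  have hx : x ∈ TD f ε := by
    refine (hv x).mpr ⟨ζ, ?_, hfζ⟩
    unfold disc
    rw [Metric.mem_closedBall, dist_zero_right]
    exact hζ.le
  have hcr0 : 0 < cr g ζ := lt_of_lt_of_le hε hcr
  have hX : 0 < (ε / cr g ζ) ^ (5 / 48 : ℝ) := by positivity
  have h8 : b - a ≤ 2 ^ 3 := by
    have := Real.pi_lt_d2
    norm_num
    linarith
  have key := all (f := f) (x := x) hζ hε hεh hX (c := c2 / C0) (C := C1 * C0) (by positivity)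
    (by positivity) ?_ ?_ 3 a b hab h8
  · exact ⟨key.2, key.1⟩
  · intro a b h1 h2
    obtain ⟨d0, d1, d2, hcmp⟩ := hhm ζ a b hζ (by linarith) h2
    refine (hU ε hε hε1 x hx ζ hζ hfζ hcr a b h1 h2).trans ?_
    have h3 := hcmp.r
    have h4 : ((1 - ‖ζ‖) / dl ζ a b * ((b - a) / (b - a + dl ζ a b))) ^ (1 / 3 : ℝ) ≤
        C0 * hm ζ a b ^ (1 / 3 : ℝ) := by
      calc _ ≤ (C0 * hm ζ a b) ^ (1 / 3 : ℝ) := Real.rpow_le_rpow hcmp.hy.le h3 (by norm_num)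
        _ = C0 ^ (1 / 3 : ℝ) * hm ζ a b ^ (1 / 3 : ℝ) := Real.mul_rpow hC00.le hcmp.hx.le
        _ ≤ _ := mul_le_mul_of_nonneg_right hpow (Real.rpow_nonneg hcmp.hx.le _)
    calc C1 * ((ε / cr g ζ) ^ (5 / 48 : ℝ) *
          ((1 - ‖ζ‖) / dl ζ a b * ((b - a) / (b - a + dl ζ a b))) ^ (1 / 3 : ℝ))
        ≤ C1 * ((ε / cr g ζ) ^ (5 / 48 : ℝ) * (C0 * hm ζ a b ^ (1 / 3 : ℝ))) := by
          apply mul_le_mul_of_nonneg_left _ hC1.le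
          exact mul_le_mul_of_nonneg_left h4 hX.le
      _ = _ := by ring
  · intro a b h1 h2
    obtain ⟨d0, d1, d2, hcmp⟩ := hhm ζ a b hζ (by linarith) h2
    refine le_trans ?_ (hL ε hε hε2 x hx ζ hζ hfζ hcr a b h1 h2)
    have h3 := hcmp.l
    have h4 : hm ζ a b ^ (1 / 3 : ℝ) ≤
        C0 * ((1 - ‖ζ‖) / dl ζ a b * ((b - a) / (b - a + dl ζ a b))) ^ (1 / 3 : ℝ) := by
      calc hm ζ a b ^ (1 / 3 : ℝ)
          ≤ (C0 * ((1 - ‖ζ‖) / dl ζ a b * ((b - a) / (b - a + dl ζ a b)))) ^ (1 / 3 : ℝ) :=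
            Real.rpow_le_rpow hcmp.hx.le h3 (by norm_num)
        _ = C0 ^ (1 / 3 : ℝ) *
            ((1 - ‖ζ‖) / dl ζ a b * ((b - a) / (b - a + dl ζ a b))) ^ (1 / 3 : ℝ) :=
            Real.mul_rpow hC00.le hcmp.hy.le
        _ ≤ _ := mul_le_mul_of_nonneg_right hpow (Real.rpow_nonneg hcmp.hy.le _)
    calc c2 / C0 * ((ε / cr g ζ) ^ (5 / 48 : ℝ) * hm ζ a b ^ (1 / 3 : ℝ))
        ≤ c2 / C0 * ((ε / cr g ζ) ^ (5 / 48 : ℝ) *
          (C0 * ((1 - ‖ζ‖) / dl ζ a b * ((b - a) / (b - a + dl ζ a b))) ^ (1 / 3 : ℝ))) := by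
          apply mul_le_mul_of_nonneg_left _ (by positivity)
          exact mul_le_mul_of_nonneg_left h4 hX.le
      _ = _ := by
          field_simp

end Pool.Agent.NH41.PA.FINA
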