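import Pool.Agent.NH41.PA.Stm
import Pool.Agent.Y989.SD.T_AUP

/-!
Project PA: the harmonic measure of short arcs.
-/

set_option autoImplicit false

namespace Pool.Agent.NH41.PA.HM

open Pool.Agent.Y989.SD (cir)
open Pool.Agent.Y989.SD.AUP (cir_up cir_low)
open Pool.Agent.NH41.PA
open TH976 (Cmp)

/-- The Poisson integrand. -/
noncomputable def pk (ζ : ℂ) (θ : ℝ) : ℝ := (1 - ‖ζ‖ ^ 2) / ‖cir θ - ζ‖ ^ 2

theorem norm_cir (θ : ℝ) : ‖cir θ‖ = 1 := Complex.norm_exp_ofReal_mul_I θ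

theorem low1 (ζ : ℂ) (θ : ℝ) : 1 - ‖ζ‖ ≤ ‖cir θ - ζ‖ := by
  have := norm_sub_norm_le (cir θ) ζ
  rw [norm_cir] at this
  exact this

theorem cont_cir : Continuous cir := by
  unfold cir
  fun_prop

theorem cont_pk {ζ : ℂ} (h : ‖ζ‖ < 1) : Continuous (pk ζ) := by
  unfold pk
  refine Continuous.div continuous_const ?_ ?_
  · exact ((cont_cir.sub continuous_const).norm).pow 2
  · intro θ
    have := low1 ζ θ
    have h2 : 0 < ‖cir θ - ζ‖ := by linarith
    positivity

theorem pk_nonneg {ζ : ℂ} (h : ‖ζ‖ < 1) (θ : ℝ) : 0 ≤ pk ζ θ := by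
  unfold pk
  have h0 := norm_nonneg ζ
  have : 0 ≤ 1 - ‖ζ‖ ^ 2 := by nlinarith
  positivity

theorem hm_eq (ζ : ℂ) (a b : ℝ) : hm ζ a b = (2 * Real.pi)⁻¹ * ∫ θ in a..b, pk ζ θ := rfl

theorem hm_add {ζ : ℂ} (h : ‖ζ‖ < 1) (a b c : ℝ) : hm ζ a c = hm ζ a b + hm ζ b c := by
  rw [hm_eq, hm_eq, hm_eq, ← mul_add]
  congr 1
  exact (intervalIntegral.integral_add_adjacent_intervals
    ((cont_pk h).intervalIntegrable a b) ((cont_pk h).intervalIntegrable b c)).symm

theorem hm_nonneg {ζ : ℂ} (h : ‖ζ‖ < 1) {a b : ℝ} (hab : a ≤ b) : 0 ≤ hm ζ a b := by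
  rw [hm_eq]
  refine mul_nonneg (by positivity) ?_
  exact intervalIntegral.integral_nonneg hab (fun θ _ => pk_nonneg h θ)

/-- The elementary integral. -/
theorem int_elem {l b : ℝ} (hl : 0 < l) (hb : 0 ≤ b) :
    ∫ s in (0:ℝ)..b, 1 / (l + s) ^ 2 = b / (l * (l + b)) := by
  have hd : ∀ s ∈ Set.uIcc 0 b, HasDerivAt (fun s : ℝ => -(l + s)⁻¹) (1 / (l + s) ^ 2) s := by
    intro s hs
    rw [Set.uIcc_of_le hb] at hs
    have hne : l + s ≠ 0 := by have := hs.1; positivity
    have h1 : HasDerivAt (fun s : ℝ => l + s) 1 s := by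
      simpa using (hasDerivAt_id s).const_add l
    have h2 := (h1.inv hne).neg
    have h3 : (1:ℝ) / (l + s) ^ 2 = -(-1 / (l + s) ^ 2) := by ring
    rw [h3]
    exact h2
  have hc : ContinuousOn (fun s : ℝ => 1 / (l + s) ^ 2) (Set.uIcc 0 b) := by
    rw [Set.uIcc_of_le hb]
    refine ContinuousOn.div continuousOn_const (by fun_prop) ?_
    intro s hs
    have := hs.1
    positivity
  rw [intervalIntegral.integral_eq_sub_of_hasDerivAt hd hc.intervalIntegrable]
  have : l + b ≠ 0 := by positivity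
  field_simp
  ring

theorem elem_mono {l a b : ℝ} (hl : 0 < l) (hb : 0 ≤ b) (hab : b ≤ a) :
    b / (l * (l + b)) ≤ a / (l * (l + a)) := by
  have ha : 0 ≤ a := le_trans hb hab
  rw [div_le_div_iff₀ (by positivity) (by positivity)]
  nlinarith [mul_nonneg (mul_nonneg hl.le hl.le) (sub_nonneg.2 hab)]

section main

variable {ζ : ℂ} {θ1 θ2 : ℝ}

theorem compact_ac : IsCompact (ac θ1 θ2) := isCompact_Icc.image cont_cir

theorem exists_star (ζ : ℂ) (h12 : θ1 < θ2) :
    ∃ t ∈ Set.Icc θ1 θ2, dl ζ θ1 θ2 = ‖cir t - ζ‖ := by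
  have hne : (ac θ1 θ2).Nonempty := ⟨cir θ1, θ1, ⟨le_rfl, h12.le⟩, rfl⟩
  obtain ⟨y, ⟨t, ht, rfl⟩, hy⟩ := (compact_ac (θ1 := θ1) (θ2 := θ2)).exists_infDist_eq_dist hne ζ
  refine ⟨t, ht, ?_⟩
  unfold dl
  rw [hy, dist_comm, dist_eq_norm]

theorem dl_le (ζ : ℂ) {t : ℝ} (ht : t ∈ Set.Icc θ1 θ2) : dl ζ θ1 θ2 ≤ ‖cir t - ζ‖ := by
  unfold dl
  rw [← dist_eq_norm, dist_comm]
  exact Metric.infDist_le_dist_of_mem ⟨t, ht, rfl⟩

theorem chord_low {t s : ℝ} (h : |t - s| ≤ 1) : |t - s| / 2 ≤ ‖cir t - cir s‖ := by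
  have hpi := Real.pi_gt_three
  rcases le_total s t with hst | hst
  · have h1 : |t - s| = t - s := abs_of_nonneg (by linarith)
    rw [h1] at h ⊢
    exact cir_low s t (t - s) (by linarith) le_rfl (by linarith)
  · have h1 : |t - s| = s - t := by rw [abs_sub_comm]; exact abs_of_nonneg (by linarith)
    rw [h1] at h ⊢
    rw [norm_sub_rev]
    exact cir_low t s (s - t) (by linarith) le_rfl (by linarith)

end main

theorem t_HM : S_HM := by
  refine ⟨64, by norm_num, ?_⟩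
  intro ζ θ1 θ2 hζ h12 h21
  obtain ⟨t, ht, htd⟩ := exists_star ζ h12
  set l : ℝ := dl ζ θ1 θ2 with hl
  have hz0 := norm_nonneg ζ
  have hhl : 1 - ‖ζ‖ ≤ l := by rw [htd]; exact low1 ζ t
  have hh0 : 0 < 1 - ‖ζ‖ := by linarith
  have hl0 : 0 < l := lt_of_lt_of_le hh0 hhl
  have hl2 : l ≤ 2 := by
    rw [htd]
    have := norm_sub_le (cir t) ζ
    rw [norm_cir] at this
    linarith
  refine ⟨hl0, hhl, hl2, ?_⟩
  set h : ℝ := 1 - ‖ζ‖ with hh
  set a : ℝ := θ2 - θ1 with ha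
  have ha0 : 0 < a := by linarith
  have ha1 : a ≤ 1 := by linarith
  have hh' : 1 - ‖ζ‖ ^ 2 = h * (1 + ‖ζ‖) := by rw [hh]; ring
  have hlow' : h ≤ 1 - ‖ζ‖ ^ 2 := by rw [hh']; nlinarith
  have hup' : 1 - ‖ζ‖ ^ 2 ≤ 2 * h := by rw [hh']; nlinarith
  -- pointwise estimates
  have habs : ∀ θ ∈ Set.Icc θ1 θ2, |θ - t| ≤ 1 := by
    intro θ hθ
    rw [abs_le]
    constructor
    · linarith [hθ.1, ht.2]
    · linarith [hθ.2, ht.1]
  have hN1 : ∀ θ ∈ Set.Icc θ1 θ2, (l + |θ - t|) / 6 ≤ ‖cir θ - ζ‖ := by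
    intro θ hθ
    have h1 := dl_le ζ hθ
    rw [← hl] at h1
    have h2 := chord_low (habs θ hθ)
    have h3 : ‖cir θ - cir t‖ ≤ ‖cir θ - ζ‖ + l := by
      rw [htd]
      calc ‖cir θ - cir t‖ = ‖(cir θ - ζ) - (cir t - ζ)‖ := by congr 1; ring
        _ ≤ _ := norm_sub_le _ _
    linarith
  have hN2 : ∀ θ, ‖cir θ - ζ‖ ≤ l + |θ - t| := by
    intro θ
    have h2 := cir_up t θ
    calc ‖cir θ - ζ‖ = ‖(cir t - ζ) + (cir θ - cir t)‖ := by congr 1; ring
      _ ≤ ‖cir t - ζ‖ + ‖cir θ - cir t‖ := norm_add_le _ _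
      _ ≤ l + |θ - t| := by rw [← htd]; linarith
  have hpkup : ∀ θ ∈ Set.Icc θ1 θ2, pk ζ θ ≤ 72 * h * (1 / (l + |θ - t|) ^ 2) := by
    intro θ hθ
    have h1 := hN1 θ hθ
    have h0 : 0 < l + |θ - t| := by positivity
    have h2 : 0 < ‖cir θ - ζ‖ := lt_of_lt_of_le (by positivity) h1
    unfold pk
    rw [mul_one_div, div_le_div_iff₀ (by positivity) (by positivity)]
    have h3 : (l + |θ - t|) ^ 2 ≤ 36 * ‖cir θ - ζ‖ ^ 2 := by
      have : l + |θ - t| ≤ 6 * ‖cir θ - ζ‖ := by linarith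
      nlinarith
    calc (1 - ‖ζ‖ ^ 2) * (l + |θ - t|) ^ 2 ≤ (2 * h) * (36 * ‖cir θ - ζ‖ ^ 2) := by
          apply mul_le_mul hup' h3 (by positivity) (by positivity)
      _ = 72 * h * ‖cir θ - ζ‖ ^ 2 := by ring
  have hpklow : ∀ θ, |θ - t| ≤ l → h / (4 * l ^ 2) ≤ pk ζ θ := by
    intro θ hθ
    have h1 := hN2 θ
    have h2 : 0 < ‖cir θ - ζ‖ := lt_of_lt_of_le hh0 (low1 ζ θ)
    unfold pk
    rw [div_le_div_iff₀ (by positivity) (by positivity)]
    have h3 : ‖cir θ - ζ‖ ^ 2 ≤ 4 * l ^ 2 := by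
      have : ‖cir θ - ζ‖ ≤ 2 * l := by linarith
      nlinarith
    exact mul_le_mul hlow' h3 (by positivity) (by nlinarith)
  have hpi := Real.pi_gt_three
  have hpi4 := Real.pi_le_four
  have hpip : 0 < Real.pi := Real.pi_pos
  -- the upper bound
  have hup : hm ζ θ1 θ2 ≤ 64 * (h / l * (a / (a + l))) := by
    have hcont : ∀ u v : ℝ, IntervalIntegrable (pk ζ) MeasureTheory.volume u v :=
      fun u v => (cont_pk hζ).intervalIntegrable u v
    have e1 : ∫ θ in t..θ2, pk ζ θ ≤ 72 * h * (a / (l * (l + a))) := by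
      have hb : 0 ≤ θ2 - t := by linarith [ht.2]
      have i1 : ∫ θ in t..θ2, 72 * h * (1 / (l + (θ - t)) ^ 2)
          = 72 * h * ((θ2 - t) / (l * (l + (θ2 - t)))) := by
        rw [intervalIntegral.integral_const_mul,
          intervalIntegral.integral_comp_sub_right (fun s => 1 / (l + s) ^ 2) t, sub_self,
          int_elem hl0 hb]
      have i2 : ∫ θ in t..θ2, pk ζ θ ≤ ∫ θ in t..θ2, 72 * h * (1 / (l + (θ - t)) ^ 2) := by
        refine intervalIntegral.integral_mono_on ht.2 (hcont _ _) ?_ ?_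
        · refine ContinuousOn.intervalIntegrable ?_
          rw [Set.uIcc_of_le ht.2]
          refine ContinuousOn.mul continuousOn_const ?_
          refine ContinuousOn.div continuousOn_const (by fun_prop) ?_
          intro s hs
          have : 0 ≤ s - t := by linarith [hs.1]
          positivity
        · intro θ hθ
          have := hpkup θ ⟨le_trans ht.1 hθ.1, hθ.2⟩
          rwa [abs_of_nonneg (by linarith [hθ.1])] at this
      refine i2.trans ?_
      rw [i1]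
      have := elem_mono hl0 hb (show θ2 - t ≤ a by linarith [ht.1])
      exact mul_le_mul_of_nonneg_left this (by positivity)
    have e2 : ∫ θ in θ1..t, pk ζ θ ≤ 72 * h * (a / (l * (l + a))) := by
      have hb : 0 ≤ t - θ1 := by linarith [ht.1]
      have i1 : ∫ θ in θ1..t, 72 * h * (1 / (l + (t - θ)) ^ 2)
          = 72 * h * ((t - θ1) / (l * (l + (t - θ1)))) := by
        rw [intervalIntegral.integral_const_mul,
          intervalIntegral.integral_comp_sub_left (fun s => 1 / (l + s) ^ 2) t, sub_self,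
          int_elem hl0 hb]
      have i2 : ∫ θ in θ1..t, pk ζ θ ≤ ∫ θ in θ1..t, 72 * h * (1 / (l + (t - θ)) ^ 2) := by
        refine intervalIntegral.integral_mono_on ht.1 (hcont _ _) ?_ ?_
        · refine ContinuousOn.intervalIntegrable ?_
          rw [Set.uIcc_of_le ht.1]
          refine ContinuousOn.mul continuousOn_const ?_
          refine ContinuousOn.div continuousOn_const (by fun_prop) ?_
          intro s hs
          have : 0 ≤ t - s := by linarith [hs.2]
          positivity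
        · intro θ hθ
          have := hpkup θ ⟨hθ.1, le_trans hθ.2 ht.2⟩
          rwa [abs_sub_comm, abs_of_nonneg (by linarith [hθ.2])] at this
      refine i2.trans ?_
      rw [i1]
      have := elem_mono hl0 hb (show t - θ1 ≤ a by linarith [ht.2])
      exact mul_le_mul_of_nonneg_left this (by positivity)
    rw [hm_eq, ← intervalIntegral.integral_add_adjacent_intervals (hcont θ1 t) (hcont t θ2)]
    have e3 : (2 * Real.pi)⁻¹ ≤ 1 / 6 := by
      rw [inv_eq_one_div]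
      exact one_div_le_one_div_of_le (by norm_num) (by linarith)
    have e4 : h / l * (a / (a + l)) = h * (a / (l * (l + a))) := by
      field_simp
      ring
    rw [e4]
    have e5 : 0 ≤ h * (a / (l * (l + a))) := by positivity
    have e6 : 0 ≤ ∫ θ in θ1..t, pk ζ θ :=
      intervalIntegral.integral_nonneg ht.1 (fun θ _ => pk_nonneg hζ θ)
    have e7 : 0 ≤ ∫ θ in t..θ2, pk ζ θ :=
      intervalIntegral.integral_nonneg ht.2 (fun θ _ => pk_nonneg hζ θ)
    calc (2 * Real.pi)⁻¹ * ((∫ θ in θ1..t, pk ζ θ) + ∫ θ in t..θ2, pk ζ θ)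
        ≤ 1 / 6 * (72 * h * (a / (l * (l + a))) + 72 * h * (a / (l * (l + a)))) := by
          refine mul_le_mul e3 (add_le_add e2 e1) (add_nonneg e6 e7) (by norm_num)
      _ ≤ 64 * (h * (a / (l * (l + a)))) := by nlinarith
  -- the lower bound
  have hlow : h / l * (a / (a + l)) ≤ 64 * hm ζ θ1 θ2 := by
    set m : ℝ := min (a / 2) l with hm'
    have hm0 : 0 < m := lt_min (by positivity) hl0
    have hma : m ≤ a / 2 := min_le_left _ _
    have hml : m ≤ l := min_le_right _ _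
    have hsub : ∃ u : ℝ, θ1 ≤ u ∧ u + m ≤ θ2 ∧ ∀ θ ∈ Set.Icc u (u + m), |θ - t| ≤ l := by
      rcases le_total (a / 2) (θ2 - t) with h1 | h1
      · refine ⟨t, ht.1, by linarith, ?_⟩
        intro θ hθ
        rw [abs_of_nonneg (by linarith [hθ.1])]
        linarith [hθ.2]
      · refine ⟨t - m, by linarith, by linarith [ht.2], ?_⟩
        intro θ hθ
        rw [abs_sub_comm, abs_of_nonneg (by linarith [hθ.2])]
        linarith [hθ.1]
    obtain ⟨u, hu1, hu2, hu3⟩ := hsub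
    have g1 : m * (h / (4 * l ^ 2)) ≤ ∫ θ in u..(u + m), pk ζ θ := by
      have i1 : ∫ _θ in u..(u + m), h / (4 * l ^ 2) = m * (h / (4 * l ^ 2)) := by
        rw [intervalIntegral.integral_const]
        simp
      rw [← i1]
      refine intervalIntegral.integral_mono_on (by linarith) (by simp)
        ((cont_pk hζ).intervalIntegrable _ _) ?_
      intro θ hθ
      exact hpklow θ (hu3 θ hθ)
    have g2 : hm ζ u (u + m) ≤ hm ζ θ1 θ2 := by
      rw [hm_add hζ θ1 u θ2, hm_add hζ u (u + m) θ2]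
      have := hm_nonneg hζ hu1
      have := hm_nonneg hζ hu2
      linarith
    have g3 : (1:ℝ) / 8 ≤ (2 * Real.pi)⁻¹ := by
      rw [inv_eq_one_div]
      exact one_div_le_one_div_of_le (by positivity) (by linarith)
    have g4 : 1 / 8 * (m * (h / (4 * l ^ 2))) ≤ hm ζ u (u + m) := by
      rw [hm_eq]
      exact mul_le_mul g3 g1 (by positivity) (by positivity)
    have g5 : a / (a + l) ≤ 2 * (m / l) := by
      rcases le_total (a / 2) l with h1 | h1
      · rw [hm', min_eq_left h1]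
        rw [show 2 * (a / 2 / l) = a / l by ring]
        exact div_le_div_of_nonneg_left ha0.le hl0 (by linarith)
      · rw [hm', min_eq_right h1, div_self hl0.ne']
        rw [div_le_iff₀ (by positivity)]
        linarith
    have g6 : h / l * (2 * (m / l)) = 64 * (1 / 8 * (m * (h / (4 * l ^ 2)))) := by
      field_simp
      ring
    calc h / l * (a / (a + l)) ≤ h / l * (2 * (m / l)) :=
          mul_le_mul_of_nonneg_left g5 (by positivity)
      _ = 64 * (1 / 8 * (m * (h / (4 * l ^ 2)))) := g6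
      _ ≤ 64 * hm ζ θ1 θ2 := by linarith
  have hy : 0 < h / l * (a / (a + l)) := by positivity
  refine ⟨by norm_num, ?_, hy, hup, hlow⟩
  linarith

end Pool.Agent.NH41.PA.HM
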