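import Pool.Agent.NH41.PA.Stm
import Pool.Agent.Y989.SD.T_AUP
import Pool.Agent.NH41.CK.LNK
import Pool.Agent.NH41.CK.HGT

/-!
Project PA (helper41), part LO (helper26): the lower bound for the probability that an interior
vertex is connected to a boundary arc.
-/

set_option autoImplicit false

namespace Pool.Agent.NH41.PA.LO

open H974 H973 Finset Pool.Agent.Y989.SD
open TH976 (sd sd_self sd_comm sd_tri Ar Cmp fkg incr_and)
open Pool.Agent.NH41.CK (pf HB LB cr)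
open Pool.Agent.NH41.CK.LOC (HB_incr HB_meet Ar_incr)
open Pool.Agent.NH41.CK.GOOD (LB_incr)
open Pool.Agent.NH41.CK.HG (notMem_BX_sd)
open Pool.Agent.NH41.CK.HGT (norm_cir cir_mem)
open Pool.Agent.NH41.CK.LNK (sd_le_norm)

theorem dl_spec (ζ : ℂ) {θ1 θ2 : ℝ} (h12 : θ1 ≤ θ2) :
    ∃ θ, θ1 ≤ θ ∧ θ ≤ θ2 ∧ dl ζ θ1 θ2 = ‖ζ - cir θ‖ := by
  have hc : Continuous cir := by
    unfold cir
    fun_prop
  have h1 : IsCompact (ac θ1 θ2) := isCompact_Icc.image hc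
  have h2 : (ac θ1 θ2).Nonempty := ⟨cir θ1, θ1, ⟨le_rfl, h12⟩, rfl⟩
  obtain ⟨y, ⟨θ, hθ, rfl⟩, hy⟩ := h1.exists_infDist_eq_dist h2 ζ
  exact ⟨θ, hθ.1, hθ.2, by rw [dl, hy, dist_eq_norm]⟩

/-- gluing at mesoscopic scales -/
theorem low1 {T : Finset Vtx} {A : Set Vtx} (hAT : ∀ u ∈ A, u ∈ T) {x v : Vtx} (hx : x ∈ T)
    {s R N : ℕ} (hR1 : 1 ≤ R) (hxv : sd x v ≤ s) (hA : ∀ u ∈ A, sd u v ≤ s) (hN : s + R ≤ N)
    {c p q : ℝ} (hp : 0 ≤ p) (hq : 0 ≤ q) (h1 : c ≤ Pr hf (ES T) (HB T v s R))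
    (h2 : p ≤ Pr hf (ES T) (Ar x N))
    (h3 : q ≤ Pr hf (ES T) (fun F => ∃ u ∈ A, ∃ w ∈ T, w ∉ BX v ((R : ℤ) - 1) ∧
      Reach (F : Set Edg) u w)) :
    c * p * q ≤ Pr hf (ES T) (fun F => ∃ u ∈ A, Reach (F : Set Edg) x u) := by
  have n3 : IncrE (ES T) (fun F => ∃ u ∈ A, ∃ w ∈ T, w ∉ BX v ((R : ℤ) - 1) ∧
      Reach (F : Set Edg) u w) := by
    rintro F G hFG - ⟨u, hu, w, hw, hw2, hr⟩
    exact ⟨u, hu, w, hw, hw2, hr.mono (by exact_mod_cast hFG)⟩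
  have i1 := fkg (HB_incr (ES T) T v s R) (Ar_incr (ES T) x N) hp h1 h2
  have i2 := fkg (incr_and (HB_incr (ES T) T v s R) (Ar_incr (ES T) x N)) n3 hq i1 h3
  refine i2.trans (Pr_mono okhalf ?_)
  rintro F hF ⟨⟨⟨z, -, hz⟩, ⟨w, hw, hxw⟩⟩, ⟨u, hu, w', hw', hw2, huw⟩⟩
  have t := sd_tri w v x
  have t2 := sd_comm x v
  have m1 := HB_meet hF hz hx hxv (by omega) hxw
  have m2 := HB_meet hF hz (hAT u hu) (hA u hu) ((notMem_BX_sd hR1).mp hw2) huw
  exact ⟨u, hu, m1.trans m2.symm⟩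

/-- gluing at the macroscopic scale -/
theorem low2 {T : Finset Vtx} {A : Set Vtx} (hAT : ∀ u ∈ A, u ∈ T) {x v : Vtx} (hx : x ∈ T)
    {s R : ℕ} (hR1 : 1 ≤ R) (hA : ∀ u ∈ A, sd u v ≤ s)
    {c p q : ℝ} (hp : 0 ≤ p) (hq : 0 ≤ q) (h1 : c ≤ Pr hf (ES T) (LB T x v s R))
    (h2 : p ≤ Pr hf (ES T) (Ar x R))
    (h3 : q ≤ Pr hf (ES T) (fun F => ∃ u ∈ A, ∃ w ∈ T, w ∉ BX v ((R : ℤ) - 1) ∧
      Reach (F : Set Edg) u w)) :
    c * p * q ≤ Pr hf (ES T) (fun F => ∃ u ∈ A, Reach (F : Set Edg) x u) := by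
  have n3 : IncrE (ES T) (fun F => ∃ u ∈ A, ∃ w ∈ T, w ∉ BX v ((R : ℤ) - 1) ∧
      Reach (F : Set Edg) u w) := by
    rintro F G hFG - ⟨u, hu, w, hw, hw2, hr⟩
    exact ⟨u, hu, w, hw, hw2, hr.mono (by exact_mod_cast hFG)⟩
  have i1 := fkg (LB_incr (ES T) T x v s R) (Ar_incr (ES T) x R) hp h1 h2
  have i2 := fkg (incr_and (LB_incr (ES T) T x v s R) (Ar_incr (ES T) x R)) n3 hq i1 h3
  refine i2.trans (Pr_mono okhalf ?_)
  rintro F hF ⟨⟨⟨z, -, hz1, hz2⟩, ⟨w, hw, hxw⟩⟩, ⟨u, hu, w', hw', hw2, huw⟩⟩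
  have m1 := HB_meet hF hz1 hx (by rw [sd_self]; omega) hw hxw
  have m2 := HB_meet hF hz2 (hAT u hu) (hA u hu) ((notMem_BX_sd hR1).mp hw2) huw
  exact ⟨u, hu, m1.trans m2.symm⟩

theorem num {a δ κ a' C1 E : ℝ} (ha : 0 < a) (hδ : 0 < δ) (hκ : 0 < κ) (hκ2 : κ ≤ 1 / 2)
    (h1 : min (a / 2) (κ * δ) ≤ a') (hC1 : 0 < C1) (hE : 0 < E) (h2 : E ≤ C1 * δ) :
    κ / C1 * (a / (a + δ)) ≤ a' / E := by
  have hd : 0 < a + δ := by positivity
  have e : κ * δ * (a / (a + δ)) ≤ a' := by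
    refine le_trans (le_min ?_ ?_) h1
    · rw [← mul_div_assoc, div_le_div_iff₀ hd (by norm_num)]
      have h3 : κ * δ ≤ 1 / 2 * (a + δ) := by nlinarith
      nlinarith [mul_le_mul_of_nonneg_left h3 ha.le]
    · have h3 : a / (a + δ) ≤ 1 := by
        rw [div_le_one hd]
        linarith
      calc κ * δ * (a / (a + δ)) ≤ κ * δ * 1 := mul_le_mul_of_nonneg_left h3 (by positivity)
        _ = κ * δ := mul_one _
  rw [le_div_iff₀ hE]
  calc κ / C1 * (a / (a + δ)) * E ≤ κ / C1 * (a / (a + δ)) * (C1 * δ) :=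
        mul_le_mul_of_nonneg_left h2 (by positivity)
    _ = κ * δ * (a / (a + δ)) := by
        field_simp
    _ ≤ a' := e

theorem t_LO : S_GA → S_ARM1 → S_NET → S_PFE → S_LO := by
  intro hGA hARM hNET hPFE f g Mf α hf' ρ B ε0 hρ hε0 hGD
  obtain ⟨l, H, hl, hH, hlip, hg, -, -, -⟩ := hGA f g Mf α hf'
  obtain ⟨cA, hcA, harm⟩ := hARM f g Mf α hf' ρ B ε0 hρ hε0 hGD
  obtain ⟨K, M, c, ρ', e1, he1, hnet⟩ := hNET f g Mf α hf' ρ B ε0 hρ hε0 hGD
  have hρ' := (hnet e1 he1 le_rfl).hρ'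
  have hK := (hnet e1 he1 le_rfl).net.hK
  have hc := (hnet e1 he1 le_rfl).net.hc
  have hKr : (3 : ℝ) ≤ K := by exact_mod_cast hK
  have hK0 : (0 : ℝ) < K := by linarith
  -- constants
  obtain ⟨C0, hC0⟩ : ∃ C0 : ℝ, C0 = H * (H + 10) + 1 := ⟨_, rfl⟩
  obtain ⟨C1, hC1⟩ : ∃ C1 : ℝ, C1 = C0 + 2 * H := ⟨_, rfl⟩
  obtain ⟨κ, hκ⟩ : ∃ κ : ℝ, κ = min (1 / 2) (ρ' / (8 * (H + 1))) := ⟨_, rfl⟩
  have hC01 : 1 ≤ C0 := by
    rw [hC0]
    have : 0 < H * (H + 10) := by positivity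
    linarith
  have hC10 : 0 < C1 := by linarith
  have hκ0 : 0 < κ := by
    rw [hκ]
    exact lt_min (by norm_num) (by positivity)
  have hκ2 : κ ≤ 1 / 2 := by
    rw [hκ]
    exact min_le_left _ _
  have hκ3 : 8 * (H + 1) * κ ≤ ρ' := by
    have h1 : κ ≤ ρ' / (8 * (H + 1)) := by
      rw [hκ]
      exact min_le_right _ _
    rwa [le_div_iff₀ (by positivity), mul_comm] at h1
  obtain ⟨k, hk⟩ : ∃ k : ℝ, k = 2 * (K + 1) * C1 + 4 / ρ' + 1 := ⟨_, rfl⟩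
  have hk1 : 1 ≤ k := by
    rw [hk]
    have : 0 < 2 * ((K : ℝ) + 1) * C1 := by positivity
    have : 0 < 4 / ρ' := by positivity
    linarith
  obtain ⟨C, e2, hC, he2, hpfe⟩ := hPFE f g Mf α hf' ρ B ε0 hρ hε0 hGD k hk1
  have hCp : 0 < C := by linarith
  refine ⟨c * (c * C⁻¹) * (cA * (κ / (2 * K * C1)) ^ (1 / 3 : ℝ)),
    min (min e1 e2) (min ε0 (ρ' / (2 * H + 16))), by positivity,
    lt_min (lt_min he1 he2) (lt_min hε0 (by positivity)), ?_⟩
  intro ε hε hε1 x hx ζ hζ hfζ hcr θ1 θ2 ha ha1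
  have hεe1 : ε ≤ e1 := hε1.trans ((min_le_left _ _).trans (min_le_left _ _))
  have hεe2 : ε ≤ e2 := hε1.trans ((min_le_left _ _).trans (min_le_right _ _))
  have hεe0 : ε ≤ ε0 := hε1.trans ((min_le_right _ _).trans (min_le_left _ _))
  have hερ : ε * (2 * H + 16) ≤ ρ' := by
    have h1 : ε ≤ ρ' / (2 * H + 16) := hε1.trans ((min_le_right _ _).trans (min_le_right _ _))
    rwa [le_div_iff₀ (by positivity)] at h1
  obtain ⟨-, hgd, hnt, hwin⟩ := hnet ε hε hεe1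
  obtain ⟨T, hT⟩ : ∃ T, T = TD f ε := ⟨_, rfl⟩
  -- the distance
  obtain ⟨θs, hs1, hs2, hδ'⟩ := dl_spec ζ (θ1 := θ1) (θ2 := θ2) (by linarith)
  obtain ⟨δ, hδ⟩ : ∃ δ, δ = dl ζ θ1 θ2 := ⟨_, rfl⟩
  obtain ⟨h, hh⟩ : ∃ h, h = 1 - ‖ζ‖ := ⟨_, rfl⟩
  obtain ⟨a, haa⟩ : ∃ a, a = θ2 - θ1 := ⟨_, rfl⟩
  rw [← haa] at ha
  have ha1' : a ≤ 1 := by linarith
  have hap : 0 < a := by linarith
  rw [← hδ] at hδ'
  have hh0 : 0 < h := by linarith
  have hhδ : h ≤ δ := by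
    have h1 := norm_sub_norm_le (cir θs) ζ
    rw [norm_cir, norm_sub_rev] at h1
    linarith
  have hδ0 : 0 < δ := by linarith
  have hδ2 : δ ≤ 2 := by
    have h1 := norm_sub_le ζ (cir θs)
    rw [norm_cir] at h1
    linarith
  have hζd : ζ ∈ disc := by
    unfold disc
    rw [Metric.mem_closedBall, dist_zero_right]
    exact hζ.le
  have hεh : ε ≤ 2 * H * h := by
    refine hcr.trans ?_
    unfold cr
    have h1 := (hg ζ hζd).2
    have h2 : 1 - ‖ζ‖ ^ 2 ≤ 2 * h := by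
      rw [hh]
      nlinarith [norm_nonneg ζ]
    have h3 : 0 ≤ 1 - ‖ζ‖ ^ 2 := by nlinarith [norm_nonneg ζ]
    calc ‖g ζ‖ * (1 - ‖ζ‖ ^ 2) ≤ H * (2 * h) := mul_le_mul h1 h2 h3 hH.le
      _ = 2 * H * h := by ring
  have hεδ : ε ≤ 2 * H * δ := hεh.trans (mul_le_mul_of_nonneg_left hhδ (by positivity))
  have hcr0 : 0 < cr g ζ := by linarith
  -- the size of the small arc
  obtain ⟨b, hb⟩ : ∃ b, b = max (ε / 2) (min (a / 2) (κ * δ)) := ⟨_, rfl⟩
  have hb1 : ε / 2 ≤ b := by rw [hb]; exact le_max_left _ _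
  have hb2 : b ≤ a / 2 := by
    rw [hb]
    exact max_le (by linarith) (min_le_left _ _)
  have hb3 : min (a / 2) (κ * δ) ≤ b := by rw [hb]; exact le_max_right _ _
  have hb4 : b ≤ max (ε / 2) (κ * δ) := by
    rw [hb]
    exact max_le_max le_rfl (min_le_right _ _)
  have hb5 : b ≤ (H + 1) * δ := by
    refine hb4.trans (max_le ?_ ?_)
    · have e1 : (H + 1) * δ = H * δ + δ := by ring
      have e2 : 2 * H * δ = 2 * (H * δ) := by ring
      linarith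
    · exact mul_le_mul_of_nonneg_right (by linarith) hδ0.le
  have hHδ : 0 < H * δ := by positivity
  have hHε : 0 < H * ε := by positivity
  have hHκ : 0 < H * κ := by positivity
  have hHHδ : 0 < H * (H * δ) := by positivity
  have hb0 : 0 < b := by linarith
  -- the centre
  obtain ⟨θJ, hθJ⟩ : ∃ θJ, θJ = max (θ1 + b) (min θs (θ2 - b)) := ⟨_, rfl⟩
  have hJ1 : θ1 + b ≤ θJ := by rw [hθJ]; exact le_max_left _ _
  have hJ2 : θJ ≤ θ2 - b := by
    rw [hθJ]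
    exact max_le (by linarith) (min_le_right _ _)
  have hJ3 : |θJ - θs| ≤ b := by
    rw [hθJ, abs_le]
    constructor
    · have h1 : θs - b ≤ min θs (θ2 - b) := le_min (by linarith) (by linarith)
      have h2 := le_max_right (θ1 + b) (min θs (θ2 - b))
      linarith
    · have h1 : max (θ1 + b) (min θs (θ2 - b)) ≤ θs + b :=
        max_le (by linarith) ((min_le_left _ _).trans (by linarith))
      linarith
  obtain ⟨v, hv1, hv2, hv3⟩ := hgd.2.1 θJ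
  -- distances
  have hlipJ : ∀ θ : ℝ, |θ - θJ| ≤ b → ‖f (cir θ) - f (cir θJ)‖ ≤ H * b := by
    intro θ hθ
    refine ((hlip _ (cir_mem θ) _ (cir_mem θJ)).2).trans (mul_le_mul_of_nonneg_left ?_ hH.le)
    exact (AUP.cir_up θJ θ).trans hθ
  have hxv : ε * (sd x v : ℝ) ≤ C0 * δ := by
    refine (sd_le_norm hε x v).trans ?_
    have e : pos ε x - pos ε v = (f ζ - f (cir θs)) + (f (cir θs) - f (cir θJ)) -
        (pos ε v - f (cir θJ)) := by rw [hfζ]; ring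
    rw [e]
    refine (norm_sub_le _ _).trans ?_
    have h1 := norm_add_le (f ζ - f (cir θs)) (f (cir θs) - f (cir θJ))
    have h2 := (hlip ζ hζd _ (cir_mem θs)).2
    rw [← hδ'] at h2
    have h3 := hlipJ θs (by rw [abs_sub_comm]; exact hJ3)
    have h4 : H * b ≤ H * ((H + 1) * δ) := mul_le_mul_of_nonneg_left hb5 hH.le
    rw [hC0]
    linarith
  have hnear : ∀ u ∈ near f ε (θJ - b) (θJ + b), ε * (sd u v : ℝ) ≤ H * b + 4 * ε := by
    rintro u ⟨hu1, θ, hu2, hu3, hu4⟩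
    refine (sd_le_norm hε u v).trans ?_
    have e : pos ε u - pos ε v = (pos ε u - f (cir θ)) + (f (cir θ) - f (cir θJ)) -
        (pos ε v - f (cir θJ)) := by ring
    rw [e]
    refine (norm_sub_le _ _).trans ?_
    have h1 := norm_add_le (pos ε u - f (cir θ)) (f (cir θ) - f (cir θJ))
    have h3 := hlipJ θ (by rw [abs_le]; constructor <;> linarith)
    linarith
  have hHb : H * b + 4 * ε ≤ C0 * δ := by
    have h4 : H * b ≤ H * ((H + 1) * δ) := mul_le_mul_of_nonneg_left hb5 hH.le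
    rw [hC0]
    linarith
  have hsubn : ∀ u ∈ near f ε (θJ - b) (θJ + b), u ∈ near f ε θ1 θ2 := by
    rintro u ⟨hu1, θ, hu2, hu3, hu4⟩
    exact ⟨hu1, θ, by linarith, by linarith, hu4⟩
  have hnT : ∀ u ∈ near f ε (θJ - b) (θJ + b), u ∈ TD f ε := fun u hu => hu.1
  have hfinal : Pr hf (ES (TD f ε)) (fun F => ∃ u ∈ near f ε (θJ - b) (θJ + b),
      Reach (F : Set Edg) x u) ≤ Pr hf (ES (TD f ε)) (PtA f ε x θ1 θ2) := by
    refine Pr_mono okhalf ?_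
    rintro F - ⟨u, hu, hr⟩
    exact ⟨u, hsubn u hu, hr⟩
  -- the radius
  obtain ⟨r, hr⟩ : ∃ r, r = ⌈C0 * δ / ε⌉₊ := ⟨_, rfl⟩
  obtain ⟨S, hS⟩ : ∃ S, S = ⌊ρ' / ε⌋₊ := ⟨_, rfl⟩
  rw [← hS] at hnt hwin
  have hC0δ : 0 < C0 * δ := by positivity
  have hr1 : 1 ≤ r := by
    rw [hr]
    exact Nat.one_le_ceil_iff.mpr (by positivity)
  have hr2 : C0 * δ ≤ ε * r := by
    have := Nat.le_ceil (C0 * δ / ε)
    rw [← hr, div_le_iff₀ hε] at this
    linarith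
  have hr3 : ε * r ≤ C1 * δ := by
    have := Nat.ceil_lt_add_one (a := C0 * δ / ε) (by positivity)
    rw [← hr] at this
    have h2 : ε * (r : ℝ) ≤ ε * (C0 * δ / ε + 1) := mul_le_mul_of_nonneg_left this.le hε.le
    have h3 : ε * (C0 * δ / ε + 1) = C0 * δ + ε := by
      field_simp
    rw [hC1]
    linarith
  have hS1 : 1 ≤ S := hnt.hS
  have hS2 : ρ' ≤ 2 * (ε * S) := by
    have := Nat.lt_floor_add_one (ρ' / ε)
    rw [← hS, div_lt_iff₀ hε] at this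
    linarith
  have toN : ∀ m : ℕ, ∀ t : ℝ, ε * (sd x v : ℝ) ≤ t → t ≤ ε * m → sd x v ≤ m := by
    intro m t h1 h2
    have := le_of_mul_le_mul_left (h1.trans h2) hε
    exact_mod_cast this
  have toN2 : ∀ m : ℕ, H * b + 4 * ε ≤ ε * m →
      ∀ u ∈ near f ε (θJ - b) (θJ + b), sd u v ≤ m := by
    intro m h1 u hu
    have := le_of_mul_le_mul_left ((hnear u hu).trans h1) hε
    exact_mod_cast this
  -- the arm of the small arc
  have hE : ∀ R : ℕ, 1 ≤ R → b ≤ ε * R → ε * R ≤ 2 * K * C1 * δ → (R : ℤ) ≤ ⌊ρ / ε⌋ →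
      cA * ((κ / (2 * K * C1)) ^ (1 / 3 : ℝ) * (a / (a + δ)) ^ (1 / 3 : ℝ)) ≤
        Pr hf (ES (TD f ε)) (fun F => ∃ u ∈ near f ε (θJ - b) (θJ + b),
          ∃ w ∈ TD f ε, w ∉ BX v ((R : ℤ) - 1) ∧ Reach (F : Set Edg) u w) := by
    intro R h1 h2 h3 h4
    have hR0 : (0 : ℝ) < R := by exact_mod_cast h1
    refine le_trans ?_ (harm ε hε hεe0 θJ b v R ⟨hv1, hv2, hv3⟩ hb1 (by linarith) ?_
      (by exact_mod_cast h1) h4)
    · refine mul_le_mul_of_nonneg_left ?_ hcA.le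
      rw [← Real.mul_rpow (by positivity) (by positivity)]
      refine Real.rpow_le_rpow (by positivity) ?_ (by norm_num)
      exact num hap hδ0 hκ0 hκ2 hb3 (by positivity) (by push_cast; positivity)
        (by push_cast; exact h3)
    · rw [div_le_iff₀ hε]
      push_cast
      linarith
  -- the arm of the vertex
  have hA : ∀ n : ℕ, 1 ≤ n → n ≤ K * S → δ ≤ k * (ε * n) → ε * n ≤ k * δ →
      c * (C⁻¹ * ((ε / cr g ζ) ^ (5 / 48 : ℝ) * (h / δ) ^ (1 / 3 : ℝ))) ≤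
        Pr hf (ES (TD f ε)) (Ar x n) := by
    intro n h1 h2 h3 h4
    have hn0 : (0 : ℝ) < n := by exact_mod_cast h1
    have hcmp : Cmp k n (δ / ε) := by
      refine ⟨hk1, hn0, by positivity, ?_, ?_⟩
      · rw [← mul_div_assoc, le_div_iff₀ hε]
        linarith
      · rw [div_le_iff₀ hε]
        linarith
    have p1 := (hpfe ε hε hεe2 x hx ζ hζ hfζ hcr δ n (by rw [← hh]; exact hhδ) hcmp).r
    have p2 := (hnt.arm x hx n h1 h2).r
    rw [← hh] at p1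
    have p3 : C⁻¹ * ((ε / cr g ζ) ^ (5 / 48 : ℝ) * (h / δ) ^ (1 / 3 : ℝ)) ≤
        pf (TD f ε) x n := by
      rw [inv_mul_le_iff₀ hCp]
      exact p1
    calc c * (C⁻¹ * ((ε / cr g ζ) ^ (5 / 48 : ℝ) * (h / δ) ^ (1 / 3 : ℝ)))
        ≤ c * pf (TD f ε) x n := mul_le_mul_of_nonneg_left p3 hc.le
      _ ≤ c * (c⁻¹ * Pr hf (ES (TD f ε)) (Ar x n)) := mul_le_mul_of_nonneg_left p2 hc.le
      _ = _ := by rw [← mul_assoc, mul_inv_cancel₀ hc.ne', one_mul]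
  have hp0 : 0 ≤ c * (C⁻¹ * ((ε / cr g ζ) ^ (5 / 48 : ℝ) * (h / δ) ^ (1 / 3 : ℝ))) := by
    positivity
  have hq0 : 0 ≤ cA * ((κ / (2 * K * C1)) ^ (1 / 3 : ℝ) * (a / (a + δ)) ^ (1 / 3 : ℝ)) := by
    positivity
  rw [← hδ, ← hh, ← haa]
  have hsplit : c * (c * C⁻¹) * (cA * (κ / (2 * K * C1)) ^ (1 / 3 : ℝ)) *
      ((ε / cr g ζ) ^ (5 / 48 : ℝ) * (h / δ * (a / (a + δ))) ^ (1 / 3 : ℝ)) =
      c * (c * (C⁻¹ * ((ε / cr g ζ) ^ (5 / 48 : ℝ) * (h / δ) ^ (1 / 3 : ℝ)))) *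
        (cA * ((κ / (2 * K * C1)) ^ (1 / 3 : ℝ) * (a / (a + δ)) ^ (1 / 3 : ℝ))) := by
    rw [Real.mul_rpow (x := h / δ) (by positivity) (by positivity)]
    ring
  rw [hsplit]
  refine le_trans ?_ hfinal
  have kC1 : 0 < K * (C1 * δ) := by positivity
  rcases Nat.le_total (2 * r) S with hcase | hcase
  · -- mesoscopic
    have hKr1 : 1 ≤ K * r := Nat.mul_pos (by omega) hr1
    have hrK : ε * r ≤ ε * ((K * r : ℕ) : ℝ) := by
      apply mul_le_mul_of_nonneg_left _ hε.le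
      exact_mod_cast Nat.le_mul_of_pos_left r (by omega)
    have hKrC : ε * ((K * r : ℕ) : ℝ) ≤ K * (C1 * δ) := by
      push_cast
      calc ε * ((K : ℝ) * r) = K * (ε * r) := by ring
        _ ≤ K * (C1 * δ) := mul_le_mul_of_nonneg_left hr3 hK0.le
    have hKS : K * r ≤ K * S := Nat.mul_le_mul_left K (by omega)
    refine low1 hnT hx (s := r) (R := K * r) (N := (K + 1) * r) hKr1 (toN r _ hxv hr2)
      (toN2 r (hHb.trans hr2)) (le_of_eq (by ring)) hp0 hq0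
      (hnt.blk v hv1 r hr1 (by omega)) (hA _ ?_ ?_ ?_ ?_) (hE (K * r) hKr1 ?_ ?_ ?_)
    · exact Nat.mul_pos (by omega) hr1
    · calc (K + 1) * r = K * r + r := by ring
        _ ≤ K * r + K * r := Nat.add_le_add_left (Nat.le_mul_of_pos_left r (by omega)) _
        _ = K * (2 * r) := by ring
        _ ≤ K * S := Nat.mul_le_mul_left K hcase
    · push_cast
      have h1 : δ ≤ C0 * δ := le_mul_of_one_le_left hδ0.le hC01
      have h2 : δ ≤ ε * r := h1.trans hr2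
      have h3 : (0 : ℝ) ≤ ε * r := by positivity
      calc δ ≤ ε * r := h2
        _ = 1 * (1 * (ε * r)) := by ring
        _ ≤ k * ((K + 1) * (ε * r)) :=
            mul_le_mul hk1 (mul_le_mul_of_nonneg_right (by linarith) h3) (by positivity)
              (by linarith)
        _ = k * (ε * ((K + 1) * r)) := by ring
    · push_cast
      have h5 : 0 ≤ 4 / ρ' := by positivity
      calc ε * (((K : ℝ) + 1) * r) = (K + 1) * (ε * r) := by ring
        _ ≤ (K + 1) * (C1 * δ) := mul_le_mul_of_nonneg_left hr3 (by positivity)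
        _ ≤ k * δ := by
            have h6 : 0 < ((K : ℝ) + 1) * (C1 * δ) := by positivity
            have h7 : k * δ = 2 * ((K + 1) * (C1 * δ)) + 4 / ρ' * δ + δ := by
              rw [hk]
              ring
            have h8 : 0 ≤ 4 / ρ' * δ := by positivity
            rw [h7]
            linarith
    · refine le_trans ?_ (hr2.trans hrK)
      refine hb5.trans ?_
      rw [hC0]
      linarith
    · linarith
    · refine le_trans ?_ hwin
      exact_mod_cast hKS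
  · -- macroscopic
    have hKS1 : 1 ≤ K * S := Nat.mul_pos (by omega) hS1
    have hSK : ε * S ≤ ε * ((K * S : ℕ) : ℝ) := by
      apply mul_le_mul_of_nonneg_left _ hε.le
      exact_mod_cast Nat.le_mul_of_pos_left S (by omega)
    have hSC : ε * S ≤ 2 * (C1 * δ) := by
      have h1 : (S : ℝ) ≤ 2 * r := by exact_mod_cast hcase
      have h2 : ε * (S : ℝ) ≤ ε * (2 * r) := mul_le_mul_of_nonneg_left h1 hε.le
      linarith
    have hKSC : ε * ((K * S : ℕ) : ℝ) ≤ 2 * (K * (C1 * δ)) := by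
      push_cast
      calc ε * ((K : ℝ) * S) = K * (ε * S) := by ring
        _ ≤ K * (2 * (C1 * δ)) := mul_le_mul_of_nonneg_left hSC hK0.le
        _ = _ := by ring
    have hκδ : κ * δ ≤ 2 * κ := by
      have := mul_le_mul_of_nonneg_left hδ2 hκ0.le
      linarith
    have hHb2 : H * b + 4 * ε ≤ ε * S := by
      have h1 : H * b ≤ H * (ε / 2) + H * (κ * δ) := by
        rw [← mul_add]
        refine mul_le_mul_of_nonneg_left (hb4.trans (max_le ?_ ?_)) hH.le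
        · have : 0 < κ * δ := by positivity
          linarith
        · linarith
      have h2 : H * (κ * δ) ≤ H * (2 * κ) := mul_le_mul_of_nonneg_left hκδ hH.le
      linarith
    have hb6 : b ≤ ε * S := by
      refine hb4.trans (max_le ?_ ?_)
      · linarith
      · linarith
    refine low2 hnT hx (s := S) (R := K * S) hKS1 (toN2 S hHb2) hp0 hq0
      (hnt.lnk x hx v hv1) (hA _ hKS1 le_rfl ?_ ?_) (hE (K * S) hKS1 (hb6.trans hSK) ?_ hwin)
    · have h1 : δ ≤ 4 / ρ' * (ε * S) := by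
        rw [div_mul_eq_mul_div, le_div_iff₀ hρ']
        have := mul_le_mul_of_nonneg_right hδ2 hρ'.le
        linarith
      have h2 : 4 / ρ' ≤ k := by
        rw [hk]
        have : 0 < 2 * ((K : ℝ) + 1) * C1 := by positivity
        linarith
      have h3 : (0 : ℝ) ≤ ε * S := by positivity
      calc δ ≤ 4 / ρ' * (ε * S) := h1
        _ ≤ k * (ε * S) := mul_le_mul_of_nonneg_right h2 h3
        _ ≤ k * (ε * ((K * S : ℕ) : ℝ)) := mul_le_mul_of_nonneg_left hSK (by linarith)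
    · refine hKSC.trans ?_
      have h5 : 0 ≤ 4 / ρ' * δ := by positivity
      have h6 : 0 < C1 * δ := by positivity
      have h7 : k * δ = 2 * (K * (C1 * δ)) + 2 * (C1 * δ) + 4 / ρ' * δ + δ := by
        rw [hk]
        ring
      rw [h7]
      linarith
    · linarith

end Pool.Agent.NH41.PA.LO
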