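import Pool.Agent.NH41.PA.Stm
import Pool.Agent.NH41.CK.TWO

/-!
Project PA: the profile in terms of the conformal radius.
-/

set_option autoImplicit false

namespace Pool.Agent.NH41.PA.PFE

open H974 H973 Finset Pool.Agent.Y989.SD
open TH976 (sd Cmp EH)
open Pool.Agent.NH41.CK (hgt pf cr S_HGT)
open Pool.Agent.NH41.CK.TWO (one_sq hgt_cmp min_cmp')

/-- The conformal radius and the distance to the circle. -/
theorem cr_cmp {g : ℂ → ℂ} {ζ : ℂ} {ε l H P : ℝ} (he : 0 < ε) (hl : 0 < l) (hP1 : 1 ≤ P)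
    (hP2 : 2 * H ≤ P) (hP3 : 2 / l ≤ P) (hζ : ‖ζ‖ < 1) (h1 : l ≤ ‖g ζ‖) (h2 : ‖g ζ‖ ≤ H) :
    Cmp P (ε / (1 - ‖ζ‖)) (ε / cr g ζ) := by
  obtain ⟨e0, e1⟩ := one_sq (norm_nonneg ζ) hζ
  have hh : 0 < 1 - ‖ζ‖ := sub_pos.mpr hζ
  have hg : 0 < ‖g ζ‖ := lt_of_lt_of_le hl h1
  have hc : 0 < cr g ζ := by
    unfold cr
    exact mul_pos hg (lt_of_lt_of_le hh e0)
  have h3 : cr g ζ ≤ P * (1 - ‖ζ‖) := by
    unfold cr
    calc ‖g ζ‖ * (1 - ‖ζ‖ ^ 2) ≤ H * (2 * (1 - ‖ζ‖)) :=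
          mul_le_mul h2 e1 (by linarith) (by linarith)
      _ = 2 * H * (1 - ‖ζ‖) := by ring
      _ ≤ _ := mul_le_mul_of_nonneg_right hP2 hh.le
  have h4 : 1 - ‖ζ‖ ≤ P * cr g ζ := by
    have h5 : l * (1 - ‖ζ‖) ≤ cr g ζ := by
      unfold cr
      exact mul_le_mul h1 e0 hh.le hg.le
    have h6 : 1 - ‖ζ‖ ≤ 2 / l * cr g ζ := by
      rw [div_mul_eq_mul_div, le_div_iff₀ hl]
      nlinarith
    exact h6.trans (mul_le_mul_of_nonneg_right hP3 hc.le)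
  have key : Cmp P (1 - ‖ζ‖) (cr g ζ) := ⟨hP1, hh, hc, h4, h3⟩
  have := ((Cmp.refl he).div key).weaken (l := P) (by rw [one_mul])
  exact this

/-- The exponents. -/
theorem rpow_id {ε h δ : ℝ} (he : 0 < ε) (hh : 0 < h) (hδ : 0 < δ) :
    (δ / ε) ^ (-(5 / 48 : ℝ)) * (h / δ) ^ (11 / 48 : ℝ) =
      (ε / h) ^ (5 / 48 : ℝ) * (h / δ) ^ (1 / 3 : ℝ) := by
  have h1 : 0 < ε / h := div_pos he hh
  have h2 : 0 < h / δ := div_pos hh hδ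
  have e1 : (δ / ε) ^ (-(5 / 48 : ℝ)) = (ε / h) ^ (5 / 48 : ℝ) * (h / δ) ^ (5 / 48 : ℝ) := by
    rw [Real.rpow_neg (div_pos hδ he).le, ← Real.inv_rpow (div_pos hδ he).le, inv_div,
      ← Real.mul_rpow h1.le h2.le]
    congr 1
    field_simp
  rw [e1, mul_assoc, ← Real.rpow_add h2]
  norm_num

theorem t_PFE : S_GA → S_HGT → S_PFE := by
  intro hGA hHGT f g M α hf ρ B ε0 hρ hε0 hGD k hk
  obtain ⟨l, H, hl, hH, -, hg, -, -, -⟩ := hGA f g M α hf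
  obtain ⟨C, ε1, hC, hε1, hgt'⟩ := hHGT f g M α hf ρ B ε0 hρ hε0 hGD
  have hl2 : 0 < 2 / l := div_pos (by norm_num) hl
  obtain ⟨P, hP1, hP2, hP3⟩ : ∃ P : ℝ, 1 ≤ P ∧ 2 * H ≤ P ∧ 2 / l ≤ P :=
    ⟨1 + 2 * H + 2 / l, by linarith, by linarith, by linarith⟩
  have hCPk : 1 ≤ C * P * k := Cmp.one_le_mul' (Cmp.one_le_mul' hC hP1) hk
  refine ⟨k * (C * P * k) * (P * 1), ε1, ?_, hε1, ?_⟩
  · exact Cmp.one_le_mul' (Cmp.one_le_mul' hk hCPk) (Cmp.one_le_mul' hP1 le_rfl)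
  intro ε he hε x hx ζ hζ hfx hcx δ n hδ hn
  have hζd : ζ ∈ disc := by
    unfold disc
    rw [Metric.mem_closedBall, dist_zero_right]
    exact hζ.le
  obtain ⟨gx1, gx2⟩ := hg ζ hζd
  have hX := hgt' ε he hε x hx ζ hζd hfx
  have hX' := hgt_cmp he hH hP1 hP2 hζ gx2 hcx hX
  have hh : 0 < 1 - ‖ζ‖ := sub_pos.mpr hζ
  have hδ0 : 0 < δ := lt_of_lt_of_le hh hδ
  have hM := min_cmp' he hδ0 hCPk hX' hn
  have e1 : min 1 ((1 - ‖ζ‖) / δ) = (1 - ‖ζ‖) / δ :=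
    min_eq_right ((div_le_one hδ0).mpr hδ)
  rw [e1] at hM
  have hN := hn.rpow_neg (a := 5 / 48) (by norm_num) (by norm_num)
  have key := hN.mul (hM.rpow (a := 11 / 48) (by norm_num) (by norm_num))
  rw [rpow_id he hh hδ0] at key
  have hc := (cr_cmp he hl hP1 hP2 hP3 hζ gx1 gx2).rpow (a := 5 / 48) (by norm_num) (by norm_num)
  have hr : Cmp 1 (((1 - ‖ζ‖) / δ) ^ (1 / 3 : ℝ)) (((1 - ‖ζ‖) / δ) ^ (1 / 3 : ℝ)) :=
    Cmp.refl (Real.rpow_pos_of_pos (div_pos hh hδ0) _)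
  unfold pf EH
  exact key.trans (hc.mul hr)

end Pool.Agent.NH41.PA.PFE
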