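import Pool.Agent.NH41.PA.UP

/-!
Project PA (helper41): from short arcs to all arcs.
-/

set_option autoImplicit false

namespace Pool.Agent.NH41.PA.SPL

open H974 H973 Finset Pool.Agent.Y989.SD
open TH976 (Cmp)
open Pool.Agent.NH41.CK (cr)
open Pool.Agent.NH41.PA.UP (norm_cir)

theorem cir_cont : Continuous cir := by
  unfold cir
  fun_prop

theorem den_pos {ζ : ℂ} (h : ‖ζ‖ < 1) (θ : ℝ) : 0 < ‖cir θ - ζ‖ := by
  have h1 := norm_sub_norm_le (cir θ) ζ
  rw [norm_cir] at h1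
  linarith

theorem int_cont {ζ : ℂ} (h : ‖ζ‖ < 1) :
    Continuous (fun θ : ℝ => (1 - ‖ζ‖ ^ 2) / ‖cir θ - ζ‖ ^ 2) := by
  refine continuous_const.div ((cir_cont.sub continuous_const).norm.pow 2) ?_
  intro θ
  have := den_pos h θ
  positivity

theorem hm_add' {ζ : ℂ} (h : ‖ζ‖ < 1) (a b c : ℝ) : hm ζ a c = hm ζ a b + hm ζ b c := by
  unfold hm
  rw [← mul_add, intervalIntegral.integral_add_adjacent_intervals]
  · exact (int_cont h).intervalIntegrable _ _
  · exact (int_cont h).intervalIntegrable _ _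

theorem hm_nonneg' {ζ : ℂ} (h : ‖ζ‖ < 1) {a b : ℝ} (hab : a ≤ b) : 0 ≤ hm ζ a b := by
  unfold hm
  apply mul_nonneg (by positivity)
  apply intervalIntegral.integral_nonneg hab
  intro θ _
  have h1 : 0 ≤ 1 - ‖ζ‖ ^ 2 := by nlinarith [norm_nonneg ζ]
  positivity

theorem near_split {f : ℂ → ℂ} {ε a b c : ℝ} {u : Vtx} (h : u ∈ near f ε a c) :
    u ∈ near f ε a b ∨ u ∈ near f ε b c := by
  obtain ⟨h0, θ, h1, h2, h3⟩ := h
  rcases le_total θ b with h4 | h4
  · exact Or.inl ⟨h0, θ, h1, h4, h3⟩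
  · exact Or.inr ⟨h0, θ, h4, h2, h3⟩

theorem near_mono {f : ℂ → ℂ} {ε a b a' b' : ℝ} (h1 : a' ≤ a) (h2 : b ≤ b') {u : Vtx}
    (h : u ∈ near f ε a b) : u ∈ near f ε a' b' := by
  obtain ⟨h0, θ, h3, h4, h5⟩ := h
  exact ⟨h0, θ, h1.trans h3, h4.trans h2, h5⟩

/-- the probability -/
noncomputable def pp (f : ℂ → ℂ) (ε : ℝ) (x : Vtx) (a b : ℝ) : ℝ :=
  Pr hf (ES (TD f ε)) (PtA f ε x a b)

theorem pp_split (f : ℂ → ℂ) (ε : ℝ) (x : Vtx) (a b c : ℝ) :
    pp f ε x a c ≤ pp f ε x a b + pp f ε x b c := by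
  refine le_trans (Pr_mono okhalf (B := fun F => PtA f ε x a b F ∨ PtA f ε x b c F) ?_)
    (Pr_or_le okhalf _ _ _)
  rintro F - ⟨u, hu, hr⟩
  rcases near_split (b := b) hu with h1 | h1
  · exact Or.inl ⟨u, h1, hr⟩
  · exact Or.inr ⟨u, h1, hr⟩

theorem pp_mono {f : ℂ → ℂ} {ε : ℝ} {x : Vtx} {a b a' b' : ℝ} (h1 : a' ≤ a) (h2 : b ≤ b') :
    pp f ε x a b ≤ pp f ε x a' b' := by
  apply Pr_mono okhalf
  rintro F - ⟨u, hu, hr⟩
  exact ⟨u, near_mono h1 h2 hu, hr⟩

/-- from arcs of length at most `1` to all arcs -/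
theorem all {f : ℂ → ℂ} {ε : ℝ} {x : Vtx} {ζ : ℂ} (hζ : ‖ζ‖ < 1) (hε0 : 0 < ε) (hε : ε ≤ 1 / 2) {X c C : ℝ}
    (hX : 0 < X) (hc : 0 < c) (hC : 0 < C)
    (hU : ∀ a b : ℝ, ε ≤ b - a → b ≤ a + 1 → pp f ε x a b ≤ C * (X * hm ζ a b ^ (1 / 3 : ℝ)))
    (hL : ∀ a b : ℝ, ε ≤ b - a → b ≤ a + 1 → c * (X * hm ζ a b ^ (1 / 3 : ℝ)) ≤ pp f ε x a b)
    (m : ℕ) : ∀ a b : ℝ, ε ≤ b - a → b - a ≤ 2 ^ m →
      pp f ε x a b ≤ (2 ^ m * C) * (X * hm ζ a b ^ (1 / 3 : ℝ)) ∧
      (c / 2 ^ m) * (X * hm ζ a b ^ (1 / 3 : ℝ)) ≤ pp f ε x a b := by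
  induction m with
  | zero =>
    intro a b h1 h2
    rw [pow_zero] at h2
    rw [pow_zero, one_mul, div_one]
    exact ⟨hU a b h1 (by linarith), hL a b h1 (by linarith)⟩
  | succ m ih =>
    intro a b h1 h2
    have p2 : (1 : ℝ) ≤ 2 ^ m := one_le_pow₀ (by norm_num)
    have p3 : (2 : ℝ) ^ (m + 1) = 2 * 2 ^ m := by rw [pow_succ]; ring
    have q0 : 0 ≤ hm ζ a b ^ (1 / 3 : ℝ) := Real.rpow_nonneg (hm_nonneg' hζ (by linarith)) _
    rcases le_or_gt (b - a) 1 with h3 | h3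
    · have k1 := hU a b h1 (by linarith)
      have k2 := hL a b h1 (by linarith)
      have k3 : 0 ≤ X * hm ζ a b ^ (1 / 3 : ℝ) := mul_nonneg hX.le q0
      constructor
      · refine k1.trans (mul_le_mul_of_nonneg_right ?_ k3)
        rw [p3]
        nlinarith
      · refine le_trans (mul_le_mul_of_nonneg_right ?_ k3) k2
        apply div_le_self hc.le
        rw [p3]
        linarith
    · set d := (a + b) / 2 with hd
      obtain ⟨u1, l1⟩ := ih a d (by linarith) (by rw [p3] at h2; linarith)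
      obtain ⟨u2, l2⟩ := ih d b (by linarith) (by rw [p3] at h2; linarith)
      have n1 := hm_nonneg' hζ (show a ≤ d by linarith)
      have n2 := hm_nonneg' hζ (show d ≤ b by linarith)
      have ha := hm_add' hζ a d b
      have m1 : hm ζ a d ^ (1 / 3 : ℝ) ≤ hm ζ a b ^ (1 / 3 : ℝ) :=
        Real.rpow_le_rpow n1 (by linarith) (by norm_num)
      have m2 : hm ζ d b ^ (1 / 3 : ℝ) ≤ hm ζ a b ^ (1 / 3 : ℝ) :=
        Real.rpow_le_rpow n2 (by linarith) (by norm_num)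
      constructor
      · calc pp f ε x a b ≤ pp f ε x a d + pp f ε x d b := pp_split _ _ _ _ _ _
          _ ≤ 2 ^ m * C * (X * hm ζ a d ^ (1 / 3 : ℝ)) +
              2 ^ m * C * (X * hm ζ d b ^ (1 / 3 : ℝ)) := add_le_add u1 u2
          _ ≤ 2 ^ m * C * (X * hm ζ a b ^ (1 / 3 : ℝ)) +
              2 ^ m * C * (X * hm ζ a b ^ (1 / 3 : ℝ)) := by
              apply add_le_add
              · apply mul_le_mul_of_nonneg_left _ (by positivity)
                exact mul_le_mul_of_nonneg_left m1 hX.le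
              · apply mul_le_mul_of_nonneg_left _ (by positivity)
                exact mul_le_mul_of_nonneg_left m2 hX.le
          _ = _ := by rw [p3]; ring
      · have key : ∀ y : ℝ, 0 ≤ y → hm ζ a b ≤ 2 * y →
            (c / 2 ^ m) * (X * y ^ (1 / 3 : ℝ)) ≤ pp f ε x a b →
            (c / 2 ^ (m + 1)) * (X * hm ζ a b ^ (1 / 3 : ℝ)) ≤ pp f ε x a b := by
          intro y hy h4 h5
          have h6 : hm ζ a b ^ (1 / 3 : ℝ) ≤ 2 * y ^ (1 / 3 : ℝ) := by
            calc hm ζ a b ^ (1 / 3 : ℝ) ≤ (2 * y) ^ (1 / 3 : ℝ) :=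
                  Real.rpow_le_rpow (by linarith) h4 (by norm_num)
              _ = 2 ^ (1 / 3 : ℝ) * y ^ (1 / 3 : ℝ) := Real.mul_rpow (by norm_num) hy
              _ ≤ 2 * y ^ (1 / 3 : ℝ) := by
                  apply mul_le_mul_of_nonneg_right _ (Real.rpow_nonneg hy _)
                  calc (2 : ℝ) ^ (1 / 3 : ℝ) ≤ 2 ^ (1 : ℝ) :=
                        Real.rpow_le_rpow_of_exponent_le (by norm_num) (by norm_num)
                    _ = 2 := Real.rpow_one 2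
          refine le_trans ?_ h5
          calc c / 2 ^ (m + 1) * (X * hm ζ a b ^ (1 / 3 : ℝ))
              ≤ c / 2 ^ (m + 1) * (X * (2 * y ^ (1 / 3 : ℝ))) := by
                apply mul_le_mul_of_nonneg_left _ (by positivity)
                exact mul_le_mul_of_nonneg_left h6 hX.le
            _ = _ := by
                rw [p3]
                field_simp
        rcases le_total (hm ζ a d) (hm ζ d b) with h4 | h4
        · exact key (hm ζ d b) n2 (by linarith) (l2.trans (pp_mono (by linarith) le_rfl))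
        · exact key (hm ζ a d) n1 (by linarith) (l1.trans (pp_mono le_rfl (by linarith)))

end Pool.Agent.NH41.PA.SPL
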