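import Pool.Agent.NH41.CK.GOOD3

/-!
Project PA (helper41): the probability that an interior vertex is connected to a boundary arc of a
smooth Jordan domain.  Definitions and statements of the parts.
-/

set_option autoImplicit false

namespace Pool.Agent.NH41.PA

open H974 H973 Finset Pool.Agent.Y989.SD
open TH976 (sd Ar Cmp EH)
open Pool.Agent.NH41.CK (hgt pf HB LB cr)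
open Pool.Agent.NH41.CK.GOOD3 (Net2)

/-- The arc of the unit circle. -/
def ac (θ1 θ2 : ℝ) : Set ℂ := cir '' Set.Icc θ1 θ2

/-- The distance from `ζ` to the arc. -/
noncomputable def dl (ζ : ℂ) (θ1 θ2 : ℝ) : ℝ := Metric.infDist ζ (ac θ1 θ2)

/-- The harmonic measure of the arc, seen from `ζ`. -/
noncomputable def hm (ζ : ℂ) (θ1 θ2 : ℝ) : ℝ :=
  (2 * Real.pi)⁻¹ * ∫ θ in θ1..θ2, (1 - ‖ζ‖ ^ 2) / ‖cir θ - ζ‖ ^ 2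

/-- The harmonic measure of short arcs. -/
def S_HM : Prop := ∃ C : ℝ, 1 ≤ C ∧ ∀ (ζ : ℂ) (θ1 θ2 : ℝ), ‖ζ‖ < 1 → θ1 < θ2 → θ2 ≤ θ1 + 1 →
  0 < dl ζ θ1 θ2 ∧ 1 - ‖ζ‖ ≤ dl ζ θ1 θ2 ∧ dl ζ θ1 θ2 ≤ 2 ∧
  Cmp C (hm ζ θ1 θ2)
    ((1 - ‖ζ‖) / dl ζ θ1 θ2 * ((θ2 - θ1) / (θ2 - θ1 + dl ζ θ1 θ2)))

/-- `x` is connected to the arc. -/
def PtA (f : ℂ → ℂ) (ε : ℝ) (x : Vtx) (θ1 θ2 : ℝ) (F : Finset Edg) : Prop :=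
  ∃ u ∈ near f ε θ1 θ2, Reach (F : Set Edg) x u

/-- The lattice domains at small mesh. -/
structure NetA (f : ℂ → ℂ) (ρ B α ρ' c : ℝ) (K M : ℕ) (ε : ℝ) : Prop where
  hρ' : 0 < ρ'
  gd : GDc f ε ρ B α
  net : Net2 (TD f ε) ⌊ρ' / ε⌋₊ K M c
  win : ((K * ⌊ρ' / ε⌋₊ : ℕ) : ℤ) ≤ ⌊ρ / ε⌋

/-- Existence of the data. -/
def S_NET : Prop := ∀ (f g : ℂ → ℂ) (Mf α : ℝ), SmW f g Mf α → ∀ ρ B ε0 : ℝ, 0 < ρ → 0 < ε0 →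
  (∀ ε : ℝ, 0 < ε → ε ≤ ε0 → GDc f ε ρ B α) →
  ∃ (K M : ℕ) (c ρ' ε1 : ℝ), 0 < ε1 ∧ ∀ ε : ℝ, 0 < ε → ε ≤ ε1 → NetA f ρ B α ρ' c K M ε

/-- The profile in terms of the parametrization. -/
def S_PFE : Prop := ∀ (f g : ℂ → ℂ) (Mf α : ℝ), SmW f g Mf α → ∀ ρ B ε0 : ℝ, 0 < ρ → 0 < ε0 →
  (∀ ε : ℝ, 0 < ε → ε ≤ ε0 → GDc f ε ρ B α) → ∀ k : ℝ, 1 ≤ k →
  ∃ C ε1 : ℝ, 1 ≤ C ∧ 0 < ε1 ∧ ∀ ε : ℝ, 0 < ε → ε ≤ ε1 → ∀ x ∈ TD f ε, ∀ ζ : ℂ, ‖ζ‖ < 1 →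
    f ζ = pos ε x → ε ≤ cr g ζ → ∀ (δ : ℝ) (n : ℕ), 1 - ‖ζ‖ ≤ δ → Cmp k n (δ / ε) →
      Cmp C (pf (TD f ε) x n) ((ε / cr g ζ) ^ (5 / 48 : ℝ) * ((1 - ‖ζ‖) / δ) ^ (1 / 3 : ℝ))

/-- Upper bound. -/
def S_UP : Prop := ∀ (f g : ℂ → ℂ) (Mf α : ℝ), SmW f g Mf α → ∀ ρ B ε0 : ℝ, 0 < ρ → 0 < ε0 →
  (∀ ε : ℝ, 0 < ε → ε ≤ ε0 → GDc f ε ρ B α) →
  ∃ C ε1 : ℝ, 0 < C ∧ 0 < ε1 ∧ ∀ ε : ℝ, 0 < ε → ε ≤ ε1 → ∀ x ∈ TD f ε, ∀ ζ : ℂ, ‖ζ‖ < 1 →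
    f ζ = pos ε x → ε ≤ cr g ζ → ∀ θ1 θ2 : ℝ, ε ≤ θ2 - θ1 → θ2 ≤ θ1 + 1 →
      Pr hf (ES (TD f ε)) (PtA f ε x θ1 θ2) ≤ C * ((ε / cr g ζ) ^ (5 / 48 : ℝ) *
        ((1 - ‖ζ‖) / dl ζ θ1 θ2 * ((θ2 - θ1) / (θ2 - θ1 + dl ζ θ1 θ2))) ^ (1 / 3 : ℝ))

/-- Lower bound. -/
def S_LO : Prop := ∀ (f g : ℂ → ℂ) (Mf α : ℝ), SmW f g Mf α → ∀ ρ B ε0 : ℝ, 0 < ρ → 0 < ε0 →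
  (∀ ε : ℝ, 0 < ε → ε ≤ ε0 → GDc f ε ρ B α) →
  ∃ c ε1 : ℝ, 0 < c ∧ 0 < ε1 ∧ ∀ ε : ℝ, 0 < ε → ε ≤ ε1 → ∀ x ∈ TD f ε, ∀ ζ : ℂ, ‖ζ‖ < 1 →
    f ζ = pos ε x → ε ≤ cr g ζ → ∀ θ1 θ2 : ℝ, ε ≤ θ2 - θ1 → θ2 ≤ θ1 + 1 →
      c * ((ε / cr g ζ) ^ (5 / 48 : ℝ) *
        ((1 - ‖ζ‖) / dl ζ θ1 θ2 * ((θ2 - θ1) / (θ2 - θ1 + dl ζ θ1 θ2))) ^ (1 / 3 : ℝ)) ≤
      Pr hf (ES (TD f ε)) (PtA f ε x θ1 θ2)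

end Pool.Agent.NH41.PA
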