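import Pool.Agent.NH41.PA.Stm
import Pool.Agent.NH41.CK.LNK
import Pool.Agent.Y989.SD.T_AUP

/-!
Project PA (helper41): the upper bound.
-/

set_option autoImplicit false

namespace Pool.Agent.NH41.PA.UP

open H974 H973 Finset Pool.Agent.Y989.SD
open TH976 (sd sd_self sd_comm sd_tri sd_pos Ar Cmp EH)
open Pool.Agent.NH41.CK (hgt pf HB LB cr)
open Pool.Agent.NH41.CK.GOOD3 (Net2)
open Pool.Agent.NH41.CK.HG Pool.Agent.NH41.CK.LOC
open Pool.Agent.NH41.CK.LNK (sd_le_norm norm_le_sd)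
open Pool.Agent.H160R2.CV (P)
open Pool.Agent.H160R2.CV.Quad

theorem norm_cir (θ : ℝ) : ‖cir θ‖ = 1 := Complex.norm_exp_ofReal_mul_I θ

theorem dl_le {ζ : ℂ} {θ1 θ2 θ : ℝ} (h1 : θ1 ≤ θ) (h2 : θ ≤ θ2) : dl ζ θ1 θ2 ≤ ‖ζ - cir θ‖ := by
  rw [← dist_eq_norm]
  exact Metric.infDist_le_dist_of_mem ⟨θ, ⟨h1, h2⟩, rfl⟩

theorem dl_ge {ζ : ℂ} {θ1 θ2 : ℝ} (h : θ1 ≤ θ2) : 1 - ‖ζ‖ ≤ dl ζ θ1 θ2 := by
  unfold dl
  have hne : (ac θ1 θ2).Nonempty := ⟨cir θ1, θ1, ⟨le_rfl, h⟩, rfl⟩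
  rw [Metric.le_infDist hne]
  rintro _ ⟨θ, -, rfl⟩
  rw [dist_comm, dist_eq_norm]
  have h1 := norm_sub_norm_le (cir θ) ζ
  rw [norm_cir] at h1
  exact h1

theorem dl_two {ζ : ℂ} {θ1 θ2 : ℝ} (hζ : ‖ζ‖ < 1) (h : θ1 ≤ θ2) : dl ζ θ1 θ2 ≤ 2 := by
  refine (dl_le le_rfl h).trans ((norm_sub_le _ _).trans ?_)
  rw [norm_cir]
  linarith

/-- the independence -/
theorem two_ev {T : Finset Vtx} {x v : Vtx} {r n : ℕ} (hn : 1 ≤ n) (hrn : r ≤ n)
    (hxv : 2 * n + 1 ≤ sd x v) (A : Finset Edg → Prop)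
    (hA : ∀ F, F ⊆ ES T → A F → Ar x n F ∧ ∃ u ∈ T, sd u v ≤ r ∧ Reach (F : Set Edg) x u) :
    Pr hf (ES T) A ≤ aT T x n * Pr hf (ES T) (XT T v r n) := by
  have hd : Disjoint (qT T x n) (qT T v n \ qT T v r) := by
    refine Finset.disjoint_of_subset_right Finset.sdiff_subset ?_
    exact Finset.disjoint_of_subset_left Finset.inter_subset_right
      (Finset.disjoint_of_subset_right Finset.inter_subset_right (bo_disj' (by omega)))
  have hi := indep2 (ES T) _ _ hd (ArL_inc T x n) (CxL_inc T v r n) (ArL_loc T x n)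
    (CxL_loc T v r n)
  rw [← bT_eq T v r hn]
  refine le_trans (Pr_mono okP ?_) (hi.trans (mul_le_mul (pr_ArL T x n) (pr_CxL T v r n)
    (Pr_nonneg okP _ _) (aT_nonneg _ _ _)))
  intro F hF h
  obtain ⟨h1, u, hu, hur, hxu⟩ := hA F hF h
  exact ⟨ArL_of hF le_rfl h1, CxL_of hF hrn ⟨u, x, hu, hur, by omega, hxu.symm⟩⟩

/-- real facts at small distance -/
theorem trivial_case {ε cr' h δ a H κ : ℝ} (hε : 0 < ε) (hκ : 0 < κ) (hκ1 : κ ≤ 1) (hH : 0 < H)
    (hh : 0 < h) (h1 : ε ≤ cr') (h2 : cr' ≤ 2 * H * h) (h3 : h ≤ δ) (h4 : κ * δ < ε)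
    (ha : ε ≤ a) :
    (κ / (2 * H)) ^ (5 / 48 : ℝ) * ((κ / (2 * H)) * (κ / 2)) ^ (1 / 3 : ℝ) ≤
      (ε / cr') ^ (5 / 48 : ℝ) * (h / δ * (a / (a + δ))) ^ (1 / 3 : ℝ) := by
  have hδ : 0 < δ := by linarith
  have ha0 : 0 < a := by linarith
  have hcr : 0 < cr' := by linarith
  have e1 : κ / (2 * H) ≤ ε / cr' := by
    rw [div_le_div_iff₀ (by positivity) hcr]
    calc κ * cr' ≤ κ * (2 * H * h) := mul_le_mul_of_nonneg_left h2 hκ.le
      _ ≤ κ * (2 * H * δ) := by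
          apply mul_le_mul_of_nonneg_left _ hκ.le
          exact mul_le_mul_of_nonneg_left h3 (by positivity)
      _ = (κ * δ) * (2 * H) := by ring
      _ ≤ ε * (2 * H) := mul_le_mul_of_nonneg_right h4.le (by positivity)
  have e2 : κ / (2 * H) ≤ h / δ := by
    rw [div_le_div_iff₀ (by positivity) hδ]
    have : ε ≤ 2 * H * h := h1.trans h2
    linarith
  have e3 : κ / 2 ≤ a / (a + δ) := by
    rw [div_le_div_iff₀ (by norm_num) (by positivity)]
    nlinarith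
  refine mul_le_mul (Real.rpow_le_rpow (by positivity) e1 (by norm_num)) ?_ (by positivity)
    (by positivity)
  apply Real.rpow_le_rpow (by positivity) _ (by norm_num)
  exact mul_le_mul e2 e3 (by positivity) (by positivity)

theorem t_UP : S_WIN → S_GA → S_NET → S_PFE → S_UP := by
  intro hWIN hGA hNET hPFE f g Mf α hW ρ B ε0 hρ hε0 hGD
  obtain ⟨l, H, hl0, hH, hl, hgl, -⟩ := hGA f g Mf α hW
  obtain ⟨c, Cw, hc, hCw, hWin⟩ := hWIN B α hW.al0
  obtain ⟨K, M, cN, ρ', e1, he1, hN⟩ := hNET f g Mf α hW ρ B ε0 hρ hε0 hGD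
  have hρ'0 : 0 < ρ' := (hN e1 he1 le_rfl).hρ'
  have hcN : 0 < cN := (hN e1 he1 le_rfl).net.hc
  set K' : ℝ := H / 2 + 4 with hK'
  have hK4 : 4 ≤ K' := by rw [hK']; linarith
  set κ : ℝ := min (l / 20) (min 1 (ρ' / 4)) with hκ
  have hκ0 : 0 < κ := lt_min (by positivity) (lt_min one_pos (by positivity))
  have hκ1 : κ ≤ 1 := (min_le_right _ _).trans (min_le_left _ _)
  have hκl : κ ≤ l / 20 := min_le_left _ _
  have hκρ : κ ≤ ρ' / 4 := (min_le_right _ _).trans (min_le_right _ _)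
  have hκ2 : 1 ≤ 2 / κ := by
    rw [le_div_iff₀ hκ0]
    linarith
  obtain ⟨C2, e2, hC2, he2, hP⟩ := hPFE f g Mf α hW ρ B ε0 hρ hε0 hGD (2 / κ) hκ2
  have hK0 : 0 < K' := by linarith
  set c0 : ℝ := (κ / (2 * H)) ^ (5 / 48 : ℝ) * ((κ / (2 * H)) * (κ / 2)) ^ (1 / 3 : ℝ) with hc0
  have hc00 : 0 < c0 := by positivity
  set C1 : ℝ := Cw * (8 * K' / κ) ^ (1 / 3 : ℝ) + (1 + (K' + 1) / κ) ^ (1 / 3 : ℝ) with hC1
  have p1 : 0 < Cw * (8 * K' / κ) ^ (1 / 3 : ℝ) := by positivity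
  have p2 : 0 < (1 + (K' + 1) / κ) ^ (1 / 3 : ℝ) := by positivity
  have hC10 : 0 < C1 := by positivity
  refine ⟨c0⁻¹ + cN⁻¹ * C2 * C1, min e1 e2, by positivity, lt_min he1 he2, ?_⟩
  intro ε hε hε' x hx ζ hζ hfζ hcr θ1 θ2 ha ha1
  have N := hN ε hε (hε'.trans (min_le_left _ _))
  set T := TD f ε with hT
  set a := θ2 - θ1 with hadef
  set δ := dl ζ θ1 θ2 with hδdef
  set h := 1 - ‖ζ‖ with hhdef
  have hh : 0 < h := by linarith
  have ha0 : 0 < a := by linarith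
  have h12 : θ1 ≤ θ2 := by linarith
  have hδh : h ≤ δ := dl_ge h12
  have hδ0 : 0 < δ := by linarith
  have hδ2 : δ ≤ 2 := dl_two hζ h12
  have hζd : ζ ∈ disc := by
    unfold disc
    rw [Metric.mem_closedBall, dist_zero_right]
    exact hζ.le
  have hcrh : cr g ζ ≤ 2 * H * h := by
    unfold cr
    have h1 := (hgl ζ hζd).2
    have h2 : 1 - ‖ζ‖ ^ 2 ≤ 2 * h := by
      rw [hhdef]
      nlinarith [norm_nonneg ζ]
    have h3 : 0 ≤ 1 - ‖ζ‖ ^ 2 := by nlinarith [norm_nonneg ζ]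
    calc ‖g ζ‖ * (1 - ‖ζ‖ ^ 2) ≤ H * (2 * h) := mul_le_mul h1 h2 h3 hH.le
      _ = 2 * H * h := by ring
  have hcr0 : 0 < cr g ζ := lt_of_lt_of_le hε hcr
  set X := (ε / cr g ζ) ^ (5 / 48 : ℝ) with hX
  have hX0 : 0 < X := by positivity
  have hY0 : 0 < (h / δ * (a / (a + δ))) ^ (1 / 3 : ℝ) := by positivity
  have hone : Pr hf (ES T) (PtA f ε x θ1 θ2) ≤ 1 := Pr_le_one okhalf _ _
  have hrest : 0 ≤ cN⁻¹ * C2 * C1 := by positivity
  rcases lt_or_ge (κ * δ) ε with hsm | hbig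
  · -- small distance
    have h1 := trivial_case hε hκ0 hκ1 hH hh hcr hcrh hδh hsm ha
    rw [← hc0] at h1
    calc Pr hf (ES T) (PtA f ε x θ1 θ2) ≤ 1 := hone
      _ = c0⁻¹ * c0 := (inv_mul_cancel₀ hc00.ne').symm
      _ ≤ c0⁻¹ * (X * (h / δ * (a / (a + δ))) ^ (1 / 3 : ℝ)) :=
          mul_le_mul_of_nonneg_left h1 (by positivity)
      _ ≤ _ := by
          apply mul_le_mul_of_nonneg_right _ (by positivity)
          linarith
  · -- the main case
    set n := ⌊κ * δ / ε⌋₊ with hn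
    have hq1 : 1 ≤ κ * δ / ε := by rwa [le_div_iff₀ hε, one_mul]
    have hn1 : 1 ≤ n := Nat.le_floor (by exact_mod_cast hq1)
    have hnle : (n : ℝ) ≤ κ * δ / ε := Nat.floor_le (by positivity)
    have hnlt : κ * δ / ε < n + 1 := Nat.lt_floor_add_one _
    have hn1R : (1 : ℝ) ≤ n := by exact_mod_cast hn1
    have hnz : ((n : ℕ) : ℤ) = ⌊κ * δ / ε⌋ := Int.natCast_floor_eq_floor (by positivity)
    have hnε : (n : ℝ) * ε ≤ κ * δ := by
      rwa [le_div_iff₀ hε] at hnle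
    have hnS : n ≤ ⌊ρ' / ε⌋₊ := by
      apply Nat.floor_le_floor
      apply div_le_div_of_nonneg_right _ hε.le
      have := mul_le_mul hκρ hδ2 hδ0.le (by positivity)
      linarith
    have hKpos : 1 ≤ K := by have := N.net.hK; omega
    have hnK : n ≤ K * ⌊ρ' / ε⌋₊ := hnS.trans (Nat.le_mul_of_pos_left _ hKpos)
    have hcmp : Cmp (2 / κ) n (δ / ε) := by
      refine ⟨hκ2, by linarith, by positivity, ?_, ?_⟩
      · calc (n : ℝ) ≤ κ * δ / ε := hnle
          _ = κ * (δ / ε) := by ring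
          _ ≤ (2 / κ) * (δ / ε) := by
              apply mul_le_mul_of_nonneg_right _ (by positivity)
              linarith
      · have h1 : κ * (δ / ε) ≤ 2 * n := by
          have : κ * (δ / ε) = κ * δ / ε := by ring
          rw [this]
          linarith
        rw [div_mul_eq_mul_div, le_div_iff₀ hκ0]
        linarith
    have hpf := (hP ε hε (hε'.trans (min_le_right _ _)) x hx ζ hζ hfζ hcr δ n hδh hcmp).l
    have harm : aT T x n ≤ cN⁻¹ * pf T x n := (N.net.arm x hx n hn1 hnK).l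
    have hXh0 : 0 < X * (h / δ) ^ (1 / 3 : ℝ) := by positivity
    have haT : aT T x n ≤ cN⁻¹ * C2 * (X * (h / δ) ^ (1 / 3 : ℝ)) := by
      calc aT T x n ≤ cN⁻¹ * pf T x n := harm
        _ ≤ cN⁻¹ * (C2 * (X * (h / δ) ^ (1 / 3 : ℝ))) :=
            mul_le_mul_of_nonneg_left hpf (by positivity)
        _ = _ := by ring
    have hsplit : (h / δ * (a / (a + δ))) ^ (1 / 3 : ℝ) =
        (h / δ) ^ (1 / 3 : ℝ) * (a / (a + δ)) ^ (1 / 3 : ℝ) :=
      Real.mul_rpow (by positivity) (by positivity)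
    have k6 : 20 * (κ * δ) ≤ l * δ := by
      have := mul_le_mul_of_nonneg_right hκl hδ0.le
      linarith
    have k60 : 0 < κ * δ := by positivity
    -- the vertices of the arc are far
    have hfar : ∀ u ∈ near f ε θ1 θ2, n ≤ sd u x := by
      rintro u ⟨-, θ, t1, t2, t3⟩
      have k1 : l * δ ≤ ‖f ζ - f (cir θ)‖ :=
        (mul_le_mul_of_nonneg_left (dl_le t1 t2) hl0.le).trans (hl ζ hζd _ (AUP.cir_mem θ)).1
      have k2 : ‖f ζ - f (cir θ)‖ ≤ ‖pos ε u - pos ε x‖ + 2 * ε := by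
        rw [hfζ]
        have e : pos ε x - f (cir θ) = (pos ε u - f (cir θ)) - (pos ε u - pos ε x) := by ring
        rw [e]
        refine (norm_sub_le _ _).trans ?_
        linarith
      have k3 := norm_le_sd hε u x
      by_contra hcon
      push Not at hcon
      have k4 : (sd u x : ℝ) + 1 ≤ n := by exact_mod_cast hcon
      have k5 : ε * (sd u x : ℝ) ≤ ε * (n - 1) := mul_le_mul_of_nonneg_left (by linarith) hε.le
      have k7 : ε * ((n : ℝ) - 1) = n * ε - ε := by ring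
      linarith
    have hAr : ∀ F, F ⊆ ES T → PtA f ε x θ1 θ2 F → Ar x n F := by
      rintro F - ⟨u, hu, hr⟩
      exact ⟨u, hfar u hu, hr⟩
    have hPA : Pr hf (ES T) (PtA f ε x θ1 θ2) ≤ aT T x n := Pr_mono okhalf hAr
    have hfin : Pr hf (ES T) (PtA f ε x θ1 θ2) ≤
        cN⁻¹ * C2 * (X * (h / δ) ^ (1 / 3 : ℝ)) * (C1 * (a / (a + δ)) ^ (1 / 3 : ℝ)) := by
      by_cases hsm : ⌈K' * a / ε⌉ ≤ ⌊κ * δ / ε⌋
      · -- short arc
        obtain ⟨q1, q2, q3, q4, q5⟩ := AUP.small_le hε ha hδ0 hK4 hκ0 hκ1 hsm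
        obtain ⟨v, hv, hv2, hvW⟩ := N.gd.2.1 ((θ1 + θ2) / 2)
        set r := ⌈K' * a / ε⌉₊ with hr
        have hrz : ((r : ℕ) : ℤ) = ⌈K' * a / ε⌉ := Int.natCast_ceil_eq_ceil (by positivity)
        have hrn : r ≤ n := by
          have : ((r : ℕ) : ℤ) ≤ ((n : ℕ) : ℤ) := by rw [hrz, hnz]; exact hsm
          exact_mod_cast this
        have hr1 : 1 ≤ r := by
          have : (1 : ℤ) ≤ ((r : ℕ) : ℤ) := by rw [hrz]; exact q4
          exact_mod_cast this
        have hxv : 2 * n + 1 ≤ sd x v := by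
          have k1 : l * δ ≤ ‖f ζ - f (cir ((θ1 + θ2) / 2))‖ :=
            (mul_le_mul_of_nonneg_left (dl_le (by linarith) (by linarith)) hl0.le).trans
              (hl ζ hζd _ (AUP.cir_mem _)).1
          have k2 : ‖f ζ - f (cir ((θ1 + θ2) / 2))‖ ≤ ‖pos ε x - pos ε v‖ + 2 * ε := by
            rw [hfζ]
            have e : pos ε x - f (cir ((θ1 + θ2) / 2)) =
                (pos ε v - f (cir ((θ1 + θ2) / 2))) + (pos ε x - pos ε v) := by ring
            rw [e]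
            refine (norm_add_le _ _).trans ?_
            linarith
          have k3 := norm_le_sd hε x v
          by_contra hcon
          push Not at hcon
          have k4 : (sd x v : ℝ) ≤ 2 * n := by
            have : sd x v ≤ 2 * n := by omega
            exact_mod_cast this
          have k5 : ε * (sd x v : ℝ) ≤ ε * (2 * n) := mul_le_mul_of_nonneg_left k4 hε.le
          have k7 : ε * (2 * (n : ℝ)) = 2 * (n * ε) := by ring
          linarith
        have hev := two_ev (T := T) (x := x) (v := v) hn1 hrn hxv (PtA f ε x θ1 θ2) (by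
          intro F hF hF2
          refine ⟨hAr F hF hF2, ?_⟩
          obtain ⟨u, ⟨hu, θ, t1, t2, t3⟩, hxu⟩ := hF2
          refine ⟨u, hu, ?_, hxu⟩
          rw [← mem_BX_sd, hrz]
          refine AUP.near_mem hl hH hε ha hv2 ?_ t3
          rw [abs_le]
          constructor <;> linarith)
        have hnL : ((n : ℕ) : ℤ) ≤ ⌊ρ / ε⌋ := le_trans (by exact_mod_cast hnK) N.win
        have hX1 := (hWin T v ⌊ρ / ε⌋ hvW (r : ℤ) (n : ℤ) (by exact_mod_cast hr1)
          (by exact_mod_cast hrn) hnL).1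
        have hX2 : Pr hf (ES T) (XT T v r n) ≤
            Cw * (8 * K' / κ) ^ (1 / 3 : ℝ) * (a / (a + δ)) ^ (1 / 3 : ℝ) := by
          refine hX1.trans ?_
          rw [mul_assoc, ← Real.mul_rpow (by positivity) (by positivity)]
          apply mul_le_mul_of_nonneg_left _ hCw.le
          apply Real.rpow_le_rpow (by positivity) _ (by norm_num)
          rw [hrz, hnz]
          exact q1
        refine hev.trans (mul_le_mul haT (hX2.trans ?_) (Pr_nonneg okhalf _ _)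
          (by positivity))
        apply mul_le_mul_of_nonneg_right _ (by positivity)
        rw [hC1]
        linarith
      · -- long arc
        have k1 := AUP.large_le (K := K') hε ha hδ0 hκ0 hsm
        have k2 : 1 ≤ (1 + (K' + 1) / κ) ^ (1 / 3 : ℝ) * (a / (a + δ)) ^ (1 / 3 : ℝ) := by
          rw [← Real.mul_rpow (by positivity) (by positivity)]
          exact Real.one_le_rpow k1 (by norm_num)
        have k3 : 1 ≤ C1 * (a / (a + δ)) ^ (1 / 3 : ℝ) := by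
          refine k2.trans (mul_le_mul_of_nonneg_right ?_ (by positivity))
          rw [hC1]
          linarith
        calc Pr hf (ES T) (PtA f ε x θ1 θ2) ≤ aT T x n := hPA
          _ ≤ cN⁻¹ * C2 * (X * (h / δ) ^ (1 / 3 : ℝ)) * 1 := by rw [mul_one]; exact haT
          _ ≤ _ := mul_le_mul_of_nonneg_left k3 (by positivity)
    refine hfin.trans ?_
    rw [hsplit]
    have hZ0 : 0 < X * ((h / δ) ^ (1 / 3 : ℝ) * (a / (a + δ)) ^ (1 / 3 : ℝ)) := by positivity
    calc cN⁻¹ * C2 * (X * (h / δ) ^ (1 / 3 : ℝ)) * (C1 * (a / (a + δ)) ^ (1 / 3 : ℝ))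
        = cN⁻¹ * C2 * C1 * (X * ((h / δ) ^ (1 / 3 : ℝ) * (a / (a + δ)) ^ (1 / 3 : ℝ))) := by ring
      _ ≤ _ := by
          apply mul_le_mul_of_nonneg_right _ hZ0.le
          have : 0 < c0⁻¹ := inv_pos.mpr hc00
          linarith

end Pool.Agent.NH41.PA.UP
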